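import Mathlib

set_option autoImplicit false

/-!
A finite certificate.  `H9` is the graph on `0, ..., 8` consisting of the path `0 - 1 - ... - 6`,
the vertex `7` joined to `0, 3, 6` and the vertex `8` joined to `2, 5`.
If nine sets `T 0, ..., T 8` in a ground set of `m` points (`m` large) all have density at least
`8 / 25`, then there is a walk `w 0, ..., w 6` in `H9` such that `T (w 0), T (w 3), T (w 6)` have two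
common points and `T (w 2), T (w 5)` have two common points.
-/

namespace Pool.Agent.H34.PolyRem

/-- the edges of `H9` -/
def edgesN : List (ℕ × ℕ) :=
  [(0, 1), (1, 2), (2, 3), (3, 4), (4, 5), (5, 6), (0, 7), (3, 7), (6, 7), (2, 8), (5, 8)]

/-- adjacency in `H9`, as a boolean function of natural numbers -/
def adjN (a b : ℕ) : Bool := edgesN.contains (a, b) || edgesN.contains (b, a)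

/-- bit masks of the edges -/
def edgeMasks : List ℕ := [3, 6, 12, 24, 48, 96, 129, 136, 192, 260, 288]

/-- bit masks of the independent sets -/
def indepL : List ℕ := [
    0, 1, 2, 4, 5, 8, 9, 10, 16, 17, 18, 20, 21, 32, 33, 34, 36, 37, 40, 41, 42, 64, 65, 66,
    68, 69, 72, 73, 74, 80, 81, 82, 84, 85, 128, 130, 132, 144, 146, 148, 160, 162, 164, 256,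
    257, 258, 264, 265, 266, 272, 273, 274, 320, 321, 322, 328, 329, 330, 336, 337, 338, 384,
    386, 400, 402]

inductive Cert : Type
  | l (z0 z1 z2 z3 z4 z5 z6 z7 z8 : ℕ) : Cert
  | n (w0 w1 w2 w3 w4 w5 w6 : ℕ) (a b : Cert) : Cert

/-- contribution of one bit -/
def bitw (t k z : ℕ) : ℕ := if t.testBit k then z else 0

def check : List ℕ → Cert → Bool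
  | ex, .l z0 z1 z2 z3 z4 z5 z6 z7 z8 =>
      Nat.ble ex.length 30 && Nat.ble (z0 + z1 + z2 + z3 + z4 + z5 + z6 + z7 + z8) 40 &&
        indepL.all (fun t => ex.any (fun e => Nat.beq (Nat.land t e) e) ||
          Nat.ble (25 * (bitw t 0 z0 + bitw t 1 z1 + bitw t 2 z2 + bitw t 3 z3 + bitw t 4 z4 +
            bitw t 5 z5 + bitw t 6 z6 + bitw t 7 z7 + bitw t 8 z8) + 1)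
            (8 * (z0 + z1 + z2 + z3 + z4 + z5 + z6 + z7 + z8)))
  | ex, .n w0 w1 w2 w3 w4 w5 w6 a b =>
      adjN w0 w1 && adjN w1 w2 && adjN w2 w3 && adjN w3 w4 && adjN w4 w5 && adjN w5 w6 &&
        check (Nat.lor (Nat.lor (2 ^ w0) (2 ^ w3)) (2 ^ w6) :: ex) a &&
        check (Nat.lor (2 ^ w2) (2 ^ w5) :: ex) b

def theCert : Cert :=
  (.n 0 7 3 2 8 5 4 (.n 0 7 6 5 4 3 2 (.n 3 7 6 5 8 2 3 (.n 2 8 5 4 3 7 6 (.n 7 0 1 2 8 5 4 (.n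
  7 3 4 5 8 2 1 (.n 6 5 4 3 7 0 1 (.n 5 4 3 7 0 1 2 (.n 6 5 4 3 2 1 0 (.l 1 1 1 2 1 2 1 1 0) (.l
  1 1 1 1 1 1 0 1 0)) (.n 6 5 4 3 2 1 0 (.n 6 7 0 1 2 3 4 (.l 1 2 2 3 2 2 1 0 0) (.l 1 1 1 2 1 1
  0 0 0)) (.l 1 2 1 2 2 1 0 1 0))) (.n 6 5 4 3 2 1 0 (.n 6 7 0 1 2 3 4 (.l 3 1 2 4 5 4 2 1 0)
  (.l 2 0 1 3 2 1 0 1 0)) (.l 2 2 1 1 2 1 0 1 0))) (.n 6 5 4 3 7 0 1 (.n 5 4 3 7 0 1 2 (.n 6 5 4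
  3 2 1 0 (.l 1 1 2 3 2 2 1 1 0) (.l 1 1 2 2 2 1 0 1 0)) (.n 6 5 4 3 2 1 0 (.n 6 7 0 1 2 3 4 (.l
  1 2 2 3 2 2 1 0 0) (.l 1 1 1 2 1 1 0 0 0)) (.l 0 1 1 1 1 0 0 0 0))) (.n 6 5 4 3 2 1 0 (.n 6 7
  0 1 2 3 4 (.l 2 1 2 3 4 3 1 0 0) (.l 1 0 1 2 2 1 0 0 0)) (.l 1 1 1 1 2 1 0 0 0)))) (.n 3 4 5 6
  7 0 1 (.n 5 4 3 7 0 1 2 (.n 6 5 4 3 2 1 0 (.l 1 1 1 2 1 2 1 1 0) (.l 1 2 1 1 1 2 1 1 0)) (.n 6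
  5 4 3 2 1 0 (.n 6 7 0 1 2 3 4 (.l 1 2 1 2 1 2 1 0 0) (.l 1 2 1 2 0 1 0 0 0)) (.l 0 1 0 1 1 1 0
  0 0))) (.n 6 5 4 3 7 0 1 (.n 5 4 3 7 0 1 2 (.n 6 5 4 3 2 1 0 (.l 1 1 1 2 1 2 1 1 0) (.l 2 2 1
  1 1 2 0 1 0)) (.n 6 5 4 3 2 1 0 (.n 6 7 0 1 2 3 4 (.l 1 2 1 2 1 2 1 0 0) (.l 1 1 0 1 0 1 0 0
  0)) (.l 0 1 0 1 1 1 0 0 0))) (.n 6 5 4 3 2 1 0 (.n 6 7 0 1 2 3 4 (.l 2 1 0 1 2 3 1 0 0) (.l 1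
  0 0 1 1 1 0 0 0)) (.l 1 1 0 0 1 1 0 0 0))))) (.n 7 0 1 2 8 5 4 (.n 6 5 4 3 2 1 0 (.l 1 0 1 2 1
  2 1 2 0) (.l 1 1 1 1 1 1 0 1 0)) (.n 1 0 7 6 5 4 3 (.n 6 5 4 3 2 1 0 (.l 1 1 1 2 1 2 1 1 0)
  (.l 0 1 0 1 1 2 1 1 0)) (.l 0 0 0 1 1 1 0 1 0)))) (.n 4 5 6 7 0 1 2 (.n 7 6 5 4 3 2 1 (.n 5 8
  2 1 0 7 3 (.n 3 2 1 0 7 6 5 (.n 7 3 4 5 8 2 1 (.n 1 0 7 3 4 5 6 (.n 5 4 3 7 0 1 2 (.l 1 1 1 1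
  1 1 0 1 0) (.n 5 4 3 2 1 0 7 (.l 1 1 1 1 1 1 0 1 0) (.l 1 1 1 2 1 0 0 1 0))) (.l 1 1 1 1 1 1 0
  1 0)) (.n 1 0 7 3 4 5 6 (.n 5 4 3 7 0 1 2 (.l 1 1 2 2 2 1 0 1 0) (.n 5 4 3 2 1 0 7 (.l 1 1 2 2
  2 1 0 1 0) (.l 1 1 1 2 1 0 0 1 0))) (.l 1 1 1 1 1 1 0 1 0))) (.n 7 3 4 5 8 2 1 (.n 0 1 2 3 4 5
  6 (.n 5 4 3 7 0 1 2 (.l 0 1 1 1 1 1 1 1 0) (.l 1 3 2 2 1 1 2 1 0)) (.l 0 1 1 1 1 1 1 1 0)) (.n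
  0 1 2 3 4 5 6 (.n 5 4 3 7 0 1 2 (.l 0 1 2 2 2 1 1 1 0) (.l 1 2 2 2 1 0 1 1 0)) (.l 0 1 2 1 1 1
  1 0 0)))) (.n 7 3 4 5 8 2 1 (.l 1 1 2 1 1 1 1 2 0) (.l 1 1 3 2 2 1 1 2 0))) (.n 5 8 2 1 0 7 3
  (.n 3 2 1 0 7 6 5 (.n 7 3 4 5 8 2 1 (.l 1 1 2 1 1 2 1 1 0) (.l 1 1 3 2 2 2 1 1 0)) (.n 7 3 4 5
  8 2 1 (.l 0 1 2 1 1 2 2 1 0) (.l 0 1 2 1 1 1 1 0 0))) (.n 7 3 4 5 8 2 1 (.l 1 1 3 1 1 2 2 2 0)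
  (.l 0 0 2 1 1 1 1 1 0)))) (.n 5 8 2 1 0 7 3 (.n 5 4 3 7 0 1 2 (.n 0 1 2 3 4 5 6 (.l 2 4 5 3 1
  2 4 1 0) (.n 0 1 2 8 5 4 3 (.l 1 3 5 2 1 3 3 0 1) (.l 0 1 2 1 1 1 1 0 0))) (.n 7 0 1 2 8 5 4
  (.n 7 3 4 5 8 2 1 (.n 6 5 4 3 2 1 0 (.l 1 3 3 2 1 1 2 0 0) (.l 0 2 1 2 2 1 1 1 0)) (.n 6 5 4 3
  2 1 0 (.l 1 3 3 2 1 1 2 0 0) (.l 0 1 1 1 1 0 0 0 0))) (.n 6 5 4 3 2 1 0 (.l 1 3 2 1 0 1 2 0 0)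
  (.l 0 2 1 1 1 1 1 0 0)))) (.n 6 5 4 3 2 1 0 (.l 1 1 3 2 1 1 2 2 0) (.n 7 3 4 5 8 2 1 (.l 1 1 2
  1 1 1 1 2 0) (.l 0 1 2 1 1 0 1 1 0)))))) (.n 3 7 6 5 8 2 3 (.n 2 8 5 4 3 7 6 (.n 5 4 3 7 0 1 2
  (.l 0 0 1 3 1 2 2 1 0) (.n 6 7 0 1 2 3 4 (.l 0 1 1 2 1 1 1 0 0) (.l 1 1 1 3 1 1 1 1 0))) (.l 0
  0 0 1 0 1 1 1 0)) (.n 5 8 2 1 0 7 3 (.n 5 6 7 0 1 2 3 (.n 5 4 3 7 0 1 2 (.l 1 1 2 3 0 1 3 2 0)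
  (.n 6 7 0 1 2 3 4 (.l 1 2 2 3 1 1 2 1 0) (.l 1 1 1 2 0 0 1 1 0))) (.l 0 0 1 1 0 0 1 1 0)) (.l
  0 0 1 1 0 0 1 1 0)))) (.n 2 8 5 4 3 7 0 (.n 0 7 6 5 4 3 2 (.n 2 8 5 4 3 7 6 (.n 7 0 1 2 8 5 4
  (.n 7 3 4 5 8 2 1 (.n 6 5 4 3 7 0 1 (.n 5 4 3 7 0 1 2 (.n 6 5 4 3 2 1 0 (.l 1 1 1 2 1 2 1 1 0)
  (.l 1 1 1 1 1 1 0 1 0)) (.n 6 5 4 3 2 1 0 (.n 6 7 0 1 2 3 4 (.l 1 2 2 3 2 2 1 0 0) (.l 1 1 1 2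
  1 1 0 0 0)) (.l 1 2 1 2 2 1 0 1 0))) (.n 6 5 4 3 2 1 0 (.n 6 7 0 1 2 3 4 (.l 3 1 2 4 5 4 2 1
  0) (.l 2 0 1 3 2 1 0 1 0)) (.l 2 2 1 1 2 1 0 1 0))) (.n 6 5 4 3 7 0 1 (.n 5 4 3 7 0 1 2 (.n 6
  5 4 3 2 1 0 (.l 1 1 2 3 2 2 1 1 0) (.l 1 1 2 2 2 1 0 1 0)) (.n 6 5 4 3 2 1 0 (.n 6 7 0 1 2 3 4
  (.l 1 2 2 3 2 2 1 0 0) (.l 1 1 1 2 1 1 0 0 0)) (.l 0 1 1 1 1 0 0 0 0))) (.n 6 5 4 3 2 1 0 (.n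
  6 7 0 1 2 3 4 (.l 2 1 2 3 4 3 1 0 0) (.l 1 0 1 2 2 1 0 0 0)) (.l 1 1 1 1 2 1 0 0 0)))) (.n 3 4
  5 6 7 0 1 (.n 5 4 3 7 0 1 2 (.n 6 5 4 3 2 1 0 (.l 1 1 1 2 1 2 1 1 0) (.l 1 2 1 1 1 2 1 1 0))
  (.n 6 5 4 3 2 1 0 (.n 6 7 0 1 2 3 4 (.l 1 2 1 2 1 2 1 0 0) (.l 1 2 1 2 0 1 0 0 0)) (.l 0 1 0 1
  1 1 0 0 0))) (.n 6 5 4 3 7 0 1 (.n 5 4 3 7 0 1 2 (.n 6 5 4 3 2 1 0 (.l 1 1 1 2 1 2 1 1 0) (.l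
  2 2 1 1 1 2 0 1 0)) (.n 6 5 4 3 2 1 0 (.n 6 7 0 1 2 3 4 (.l 1 2 1 2 1 2 1 0 0) (.l 1 1 0 1 0 1
  0 0 0)) (.l 0 1 0 1 1 1 0 0 0))) (.n 6 5 4 3 2 1 0 (.n 6 7 0 1 2 3 4 (.l 2 1 0 1 2 3 1 0 0)
  (.l 1 0 0 1 1 1 0 0 0)) (.l 1 1 0 0 1 1 0 0 0))))) (.n 7 0 1 2 8 5 4 (.n 6 5 4 3 2 1 0 (.l 1 0
  1 2 1 2 1 2 0) (.l 1 1 1 1 1 1 0 1 0)) (.n 1 0 7 6 5 4 3 (.n 6 5 4 3 2 1 0 (.l 1 1 1 2 1 2 1 1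
  0) (.l 0 1 0 1 1 2 1 1 0)) (.l 0 0 0 1 1 1 0 1 0)))) (.n 2 8 5 4 3 7 6 (.n 5 4 3 7 0 1 2 (.l 0
  0 1 3 1 2 2 1 0) (.n 6 7 0 1 2 3 4 (.l 0 1 1 2 1 1 1 0 0) (.l 1 1 1 3 1 1 1 1 0))) (.l 0 0 0 1
  0 1 1 1 0))) (.n 7 0 1 2 8 5 4 (.n 0 7 6 5 4 3 2 (.n 6 5 4 3 2 1 0 (.l 1 0 1 3 1 3 1 3 0) (.l
  1 1 1 2 1 2 0 2 0)) (.l 0 0 0 1 0 1 1 1 0)) (.n 0 7 6 5 4 3 2 (.n 1 0 7 6 5 4 3 (.n 6 5 4 3 2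
  1 0 (.l 1 1 1 2 0 2 1 2 0) (.l 0 1 0 1 1 2 1 1 0)) (.l 0 0 0 1 1 1 0 1 0)) (.l 0 0 0 1 0 1 1 1
  0)))))

theorem check_theCert : check edgeMasks theCert = true := by
  decide +kernel

theorem mem_indepL_or : ∀ t : Fin 512, (t : ℕ) ∈ indepL ∨ ∃ e ∈ edgeMasks, Nat.land t e = e := by
  decide +kernel

end Pool.Agent.H34.PolyRem
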