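import Pool.Agent.H34.PolyRem.Structure

set_option autoImplicit false
set_option linter.unusedSectionVars false

open Finset

namespace Pool.Agent.H34.PolyRem

variable {V : Type} [Fintype V] [DecidableEq V]

theorem card_fix_two {m : ℕ} (i j : Fin m) (hij : i ≠ j) (a b : V) :
    (univ.filter (fun X : Fin m → V => X i = a ∧ X j = b)).card * Fintype.card V ^ 2 =
      Fintype.card V ^ m := by
  have h1 : univ.filter (fun X : Fin m → V => X i = a ∧ X j = b) =
      Fintype.piFinset (fun k => if k = i then {a} else if k = j then {b} else univ) := by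
    ext X
    simp only [mem_filter, mem_univ, true_and, Fintype.mem_piFinset]
    constructor
    · rintro ⟨h1, h2⟩ k
      by_cases hk : k = i
      · subst hk; simp [h1]
      · by_cases hk2 : k = j
        · subst hk2; simp [hk, h2]
        · simp [hk, hk2]
    · intro h
      refine ⟨?_, ?_⟩
      · have := h i; simpa using this
      · have := h j; simpa [hij.symm] using this
  rw [h1, Fintype.card_piFinset]
  have h2 : ∏ k : Fin m, (if k = i ∨ k = j then Fintype.card V else 1) = Fintype.card V ^ 2 := by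
    rw [Finset.prod_ite, Finset.prod_const, Finset.prod_const_one, mul_one]
    congr 1
    have : univ.filter (fun k : Fin m => k = i ∨ k = j) = {i, j} := by
      ext k; simp
    rw [this, Finset.card_pair hij]
  rw [← h2, ← Finset.prod_mul_distrib]
  have h3 : ∀ k : Fin m, (if k = i then ({a} : Finset V) else if k = j then {b} else univ).card *
      (if k = i ∨ k = j then Fintype.card V else 1) = Fintype.card V := by
    intro k
    by_cases hk : k = i
    · simp [hk]
    · by_cases hk2 : k = j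
      · subst hk2; simp [hk]
      · simp [hk, hk2]
  rw [Finset.prod_congr rfl (fun k _ => h3 k), Finset.prod_const, Finset.card_univ, Fintype.card_fin]

theorem sum_pair {m : ℕ} (i j : Fin m) (hij : i ≠ j) (g : V → V → ℕ) :
    (∑ X : Fin m → V, g (X i) (X j)) * Fintype.card V ^ 2 =
      Fintype.card V ^ m * ∑ a : V, ∑ b : V, g a b := by
  have h1 : ∀ X : Fin m → V, g (X i) (X j) = ∑ a : V, ∑ b : V, if X i = a ∧ X j = b then g a b else 0 := by
    intro X
    rw [Finset.sum_eq_single (X i), Finset.sum_eq_single (X j)]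
    · simp
    · intro b _ hb
      rw [if_neg]
      rintro ⟨-, h⟩
      exact hb h.symm
    · intro h; exact absurd (mem_univ _) h
    · intro a _ ha
      refine Finset.sum_eq_zero fun b _ => ?_
      rw [if_neg]
      rintro ⟨h, -⟩
      exact ha h.symm
    · intro h; exact absurd (mem_univ _) h
  rw [Finset.sum_congr rfl (fun X _ => h1 X), Finset.sum_comm]
  rw [Finset.sum_mul, Finset.mul_sum]
  refine Finset.sum_congr rfl fun a _ => ?_
  rw [Finset.sum_comm, Finset.sum_mul, Finset.mul_sum]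
  refine Finset.sum_congr rfl fun b _ => ?_
  rw [← Finset.sum_filter, Finset.sum_const, smul_eq_mul, ← card_fix_two i j hij a b]
  ring

theorem sum_ext (G : SimpleGraph V) [DecidableRel G.Adj] :
    ∑ a : V, ∑ b : V, ((homs G).filter (fun f => f 7 = a ∧ f 8 = b)).card = (homs G).card := by
  have h := Finset.card_eq_sum_card_fiberwise (s := homs G) (t := (univ : Finset (V × V)))
    (f := fun f => (f 7, f 8)) (fun f _ => mem_coe.mpr (mem_univ _))
  rw [h, Fintype.sum_prod_type]
  refine Finset.sum_congr rfl fun a _ => Finset.sum_congr rfl fun b _ => ?_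
  congr 1
  refine Finset.filter_congr fun f _ => ?_
  simp

theorem double_count_aux {m : ℕ} (g : V → V → ℕ) (Gd : Finset (Fin m → V))
    (c : ℝ) (hc : ∀ X ∈ Gd, ∃ i j : Fin m, i ≠ j ∧ c ≤ (g (X i) (X j) : ℝ)) :
    ((Gd.card : ℝ) * c) * (Fintype.card V : ℝ) ^ 2 ≤
      (m : ℝ) ^ 2 * ((Fintype.card V : ℝ) ^ m * ((∑ a : V, ∑ b : V, g a b : ℕ) : ℝ)) := by
  classical
  set n : ℝ := (Fintype.card V : ℝ) with hn
  have h1 : ∀ X ∈ Gd, c ≤ ∑ p ∈ (univ : Finset (Fin m)).offDiag, (g (X p.1) (X p.2) : ℝ) := by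
    intro X hX
    obtain ⟨i, j, hij, h⟩ := hc X hX
    refine h.trans ?_
    exact Finset.single_le_sum (f := fun p : Fin m × Fin m => (g (X p.1) (X p.2) : ℝ))
      (fun p _ => Nat.cast_nonneg _) (a := (i, j)) (by simp [hij])
  have h2 : (Gd.card : ℝ) * c ≤
      ∑ X : Fin m → V, ∑ p ∈ (univ : Finset (Fin m)).offDiag, (g (X p.1) (X p.2) : ℝ) := by
    calc (Gd.card : ℝ) * c = ∑ X ∈ Gd, c := by rw [Finset.sum_const, nsmul_eq_mul]
      _ ≤ ∑ X ∈ Gd, ∑ p ∈ (univ : Finset (Fin m)).offDiag, (g (X p.1) (X p.2) : ℝ) :=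
          Finset.sum_le_sum h1
      _ ≤ _ := by
          refine Finset.sum_le_sum_of_subset_of_nonneg (Finset.subset_univ _) ?_
          intro X _ _
          exact Finset.sum_nonneg fun p _ => Nat.cast_nonneg _
  rw [Finset.sum_comm] at h2
  have h3 : ∀ p ∈ (univ : Finset (Fin m)).offDiag,
      (∑ X : Fin m → V, (g (X p.1) (X p.2) : ℝ)) * n ^ 2 =
        n ^ m * ((∑ a : V, ∑ b : V, g a b : ℕ) : ℝ) := by
    intro p hp
    have hne : p.1 ≠ p.2 := (mem_offDiag.mp hp).2.2
    have h := sum_pair p.1 p.2 hne g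
    rw [hn]
    exact_mod_cast h
  have hS0 : (0 : ℝ) ≤ ((∑ a : V, ∑ b : V, g a b : ℕ) : ℝ) := Nat.cast_nonneg _
  generalize ((∑ a : V, ∑ b : V, g a b : ℕ) : ℝ) = S at h3 hS0 ⊢
  have hS : 0 ≤ n ^ m * S := mul_nonneg (pow_nonneg (Nat.cast_nonneg _) _) hS0
  calc ((Gd.card : ℝ) * c) * n ^ 2
      ≤ (∑ p ∈ (univ : Finset (Fin m)).offDiag,
          ∑ X : Fin m → V, (g (X p.1) (X p.2) : ℝ)) * n ^ 2 :=
        mul_le_mul_of_nonneg_right h2 (sq_nonneg _)
    _ = ∑ p ∈ (univ : Finset (Fin m)).offDiag, n ^ m * S := by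
        rw [Finset.sum_mul]
        exact Finset.sum_congr rfl h3
    _ = ((univ : Finset (Fin m)).offDiag.card : ℝ) * (n ^ m * S) := by
        rw [Finset.sum_const, nsmul_eq_mul]
    _ ≤ (m : ℝ) ^ 2 * (n ^ m * S) := by
        have hle : (univ : Finset (Fin m)).offDiag.card ≤ m ^ 2 := by
          rw [offDiag_card, card_univ, Fintype.card_fin, sq]
          exact Nat.sub_le _ _
        refine mul_le_mul_of_nonneg_right ?_ hS
        exact_mod_cast hle

theorem double_count {m : ℕ} (G : SimpleGraph V) [DecidableRel G.Adj] (Gd : Finset (Fin m → V))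
    (c : ℝ) (hc : ∀ X ∈ Gd, ∃ i j : Fin m, i ≠ j ∧
      c ≤ (((homs G).filter (fun f => f 7 = X i ∧ f 8 = X j)).card : ℝ)) :
    ((Gd.card : ℝ) * c) * (Fintype.card V : ℝ) ^ 2 ≤
      (m : ℝ) ^ 2 * ((Fintype.card V : ℝ) ^ m * (homs G).card) := by
  have h := double_count_aux (fun a b => ((homs G).filter (fun f => f 7 = a ∧ f 8 = b)).card) Gd c hc
  rw [sum_ext G] at h
  exact h

theorem hom_lower (G : SimpleGraph V) [DecidableRel G.Adj]
    (hdeg : ∀ v, (33 / 100 : ℝ) * Fintype.card V ≤ (G.neighborFinset v).card)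
    (F : Finset (Fin 9 → V))
    (hF : ∀ f ∈ F, IsCopy H9 G f) (hdisj : ∀ f ∈ F, ∀ g ∈ F, f ≠ g → EdgeDisjoint H9 f g)
    (ε : ℝ) (hε : 0 < ε) (hεF : ε * (Fintype.card V : ℝ) ^ 2 ≤ F.card) (M : ℕ) (hM : 1601 ≤ M)
    (hMε : (199 / 200 : ℝ) ^ M ≤ ε / 72) (hV : 0 < Fintype.card V)
    (D : ℝ) (hD : 0 ≤ D)
    (hDε : ((2 ^ (25 * M)) ^ 9 : ℝ) * (D * (9 * Fintype.card V)) < 3 / 4 * ε * (Fintype.card V : ℝ) ^ 2) :
    (Fintype.card V : ℝ) ^ 2 * D ^ 7 ≤ 2 * ((25 * M : ℕ) : ℝ) ^ 2 * (homs G).card := by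
  classical
  have hn0 : (0 : ℝ) < (Fintype.card V : ℝ) := by exact_mod_cast hV
  have hgood := card_good_samples M (fun v => G.neighborFinset v) hdeg (ε / 36) (by positivity)
    (by linarith) hV
  have h4 := double_count G (univ.filter (fun X : Fin (25 * M) → V =>
        ((univ.filter (fun v => hits X (G.neighborFinset v) < 8 * M)).card : ℝ) ≤
          ε / 36 * Fintype.card V)) (D ^ 7) (by
    intro X hX
    exact structure_thm G F hF hdisj ε hεF M hM X (mem_filter.mp hX).2 D hD hDε)
  generalize 25 * M = m at *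
  set n : ℝ := (Fintype.card V : ℝ) with hn
  have h5 : n ^ m / 2 * D ^ 7 * n ^ 2 ≤ (m : ℝ) ^ 2 * (n ^ m * (homs G).card) := by
    refine le_trans ?_ h4
    refine mul_le_mul_of_nonneg_right ?_ (by positivity)
    exact mul_le_mul_of_nonneg_right hgood (by positivity)
  have hpos : 0 < n ^ m := by positivity
  have h6 : (n ^ 2 * D ^ 7) * n ^ m ≤ (2 * (m : ℝ) ^ 2 * (homs G).card) * n ^ m := by
    nlinarith [h5]
  exact le_of_mul_le_mul_right h6 hpos

/-- few maps are not injective -/
theorem card_noninj : (univ.filter (fun f : Fin 9 → V => ¬ Function.Injective f)).card ≤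
    81 * Fintype.card V ^ 8 := by
  classical
  have h1 : univ.filter (fun f : Fin 9 → V => ¬ Function.Injective f) ⊆
      (univ : Finset (Fin 9)).offDiag.biUnion (fun p => univ.filter (fun f : Fin 9 → V => f p.1 = f p.2)) := by
    intro f hf
    have := (mem_filter.mp hf).2
    unfold Function.Injective at this
    push Not at this
    obtain ⟨a, b, hab, hne⟩ := this
    simp only [mem_biUnion, mem_offDiag, mem_univ, true_and, mem_filter]
    exact ⟨(a, b), hne, hab⟩
  have h2 : ∀ p ∈ (univ : Finset (Fin 9)).offDiag,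
      (univ.filter (fun f : Fin 9 → V => f p.1 = f p.2)).card ≤ Fintype.card V ^ 8 := by
    intro p hp
    have hne : p.1 ≠ p.2 := (mem_offDiag.mp hp).2.2
    have hc : Fintype.card ({x : Fin 9 // x ≠ p.2} → V) = Fintype.card V ^ 8 := by
      rw [Fintype.card_fun]
      congr 1
      rw [Fintype.card_subtype_compl, Fintype.card_fin, Fintype.card_subtype_eq]
    rw [← hc, ← Finset.card_univ]
    refine Finset.card_le_card_of_injOn (fun f x => f x.1) (fun f _ => mem_coe.mpr (mem_univ _)) ?_
    intro f hf g hg h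
    simp only [coe_filter, mem_univ, true_and, Set.mem_ofPred_eq] at hf hg
    funext x
    by_cases hx : x = p.2
    · subst hx
      rw [← hf, ← hg]
      exact congrFun h ⟨p.1, hne⟩
    · exact congrFun h ⟨x, hx⟩
  refine (card_le_card h1).trans (card_biUnion_le.trans ?_)
  refine (Finset.sum_le_sum h2).trans ?_
  rw [Finset.sum_const, smul_eq_mul]
  refine Nat.mul_le_mul_right _ ?_
  rw [offDiag_card, card_univ, Fintype.card_fin]
  norm_num

theorem homs_le_copies (G : SimpleGraph V) [DecidableRel G.Adj] :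
    (homs G).card ≤ numCopies H9 G + 81 * Fintype.card V ^ 8 := by
  classical
  have h1 : (homs G).card ≤ (univ.filter (fun f : Fin 9 → V => IsCopy H9 G f)).card +
      (univ.filter (fun f : Fin 9 → V => ¬ Function.Injective f)).card := by
    refine (card_le_card ?_).trans (card_union_le _ _)
    intro f hf
    by_cases hinj : Function.Injective f
    · exact mem_union_left _ (mem_filter.mpr ⟨mem_univ _, hinj, (mem_filter.mp hf).2⟩)
    · exact mem_union_right _ (mem_filter.mpr ⟨mem_univ _, hinj⟩)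
  have h2 : (univ.filter (fun f : Fin 9 → V => IsCopy H9 G f)).card = numCopies H9 G := by
    unfold numCopies
    rw [Nat.card_eq_fintype_card, Fintype.card_subtype]
  rw [h2] at h1
  exact h1.trans (Nat.add_le_add_left card_noninj _)

end Pool.Agent.H34.PolyRem
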