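import Mathlib

set_option autoImplicit false

namespace Pool.Agent.H34.PolyRem

/-- `f` is a labeled copy of `H` in `G`: an injective map of vertices preserving adjacency. -/
def IsCopy {k : ℕ} {V : Type} (H : SimpleGraph (Fin k)) (G : SimpleGraph V) (f : Fin k → V) : Prop :=
  Function.Injective f ∧ ∀ a b, H.Adj a b → G.Adj (f a) (f b)

/-- The number of labeled copies of `H` in `G`. -/
noncomputable def numCopies {k : ℕ} {V : Type} (H : SimpleGraph (Fin k)) (G : SimpleGraph V) : ℕ :=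
  Nat.card {f : Fin k → V // IsCopy H G f}

/-- The images of the edges of `H` under `f` are distinct from its images under `g`. -/
def EdgeDisjoint {k : ℕ} {V : Type} (H : SimpleGraph (Fin k)) (f g : Fin k → V) : Prop :=
  ∀ a b c d, H.Adj a b → H.Adj c d → s(f a, f b) ≠ s(g c, g d)

/-- `G` contains at least `x` pairwise edge-disjoint copies of `H`. -/
def HasEdgeDisjointCopies {k : ℕ} {V : Type} (H : SimpleGraph (Fin k)) (G : SimpleGraph V) (x : ℝ) :
    Prop :=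
  ∃ F : Finset (Fin k → V), (∀ f ∈ F, IsCopy H G f) ∧
    (∀ f ∈ F, ∀ g ∈ F, f ≠ g → EdgeDisjoint H f g) ∧ x ≤ F.card

/-- `δ(ε, H; γ)`: the largest `δ ∈ [0, 1]` such that every `n`-vertex graph `G` with minimum degree
at least `γ n` that contains `ε n ^ 2` edge-disjoint copies of `H` contains at least `δ n ^ v(H)`
labeled copies of `H`. -/
noncomputable def remDelta {k : ℕ} (H : SimpleGraph (Fin k)) (ε γ : ℝ) : ℝ :=
  sSup {δ : ℝ | 0 ≤ δ ∧ δ ≤ 1 ∧ ∀ (n : ℕ) (G : SimpleGraph (Fin n)),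
    (∀ v, γ * n ≤ Nat.card {w // G.Adj v w}) → HasEdgeDisjointCopies H G (ε * n ^ 2) →
      δ * n ^ k ≤ numCopies H G}

/-- There is `μ > 0` with `δ(ε, H; γ) ≥ μ ε ^ (1 / μ)` for all `0 < ε < 1`. -/
def PolyRemovable {k : ℕ} (H : SimpleGraph (Fin k)) (γ : ℝ) : Prop :=
  ∃ μ : ℝ, 0 < μ ∧ ∀ ε : ℝ, 0 < ε → ε < 1 → μ * ε ^ (1 / μ) ≤ remDelta H ε γ

/-- The polynomial removal threshold `δ_poly-rem(H)`. -/
noncomputable def polyRemThreshold {k : ℕ} (H : SimpleGraph (Fin k)) : ℝ :=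
  sInf {γ : ℝ | 0 ≤ γ ∧ γ ≤ 1 ∧ PolyRemovable H γ}

end Pool.Agent.H34.PolyRem
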