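import Pool.Agent.H34.PolyRem.Cert

set_option autoImplicit false
set_option linter.unusedSectionVars false

open Finset

namespace Pool.Agent.H34.PolyRem

variable {ι : Type} [Fintype ι] [DecidableEq ι]

/-- all bits of `e` are realised at the point `i` -/
def Sub (T : ℕ → Finset ι) (e : ℕ) (i : ι) : Prop := ∀ k, k < 9 → e.testBit k = true → i ∈ T k

/-- at most one point realises all bits of `e` -/
def Light (T : ℕ → Finset ι) (e : ℕ) : Prop := ∀ i j : ι, Sub T e i → Sub T e j → i = j

/-- the type of a point as a bit mask -/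
def tmask (T : ℕ → Finset ι) (i : ι) : ℕ := Nat.ofBits (fun k : Fin 9 => decide (i ∈ T k))

theorem tmask_lt (T : ℕ → Finset ι) (i : ι) : tmask T i < 512 := Nat.ofBits_lt_two_pow _

theorem testBit_tmask (T : ℕ → Finset ι) (i : ι) {k : ℕ} (hk : k < 9) :
    (tmask T i).testBit k = decide (i ∈ T k) := by
  unfold tmask
  rw [Nat.testBit_ofBits_lt _ _ hk]

theorem sub_of_land (T : ℕ → Finset ι) (e : ℕ) (i : ι) (h : Nat.land (tmask T i) e = e) :
    Sub T e i := by
  intro k hk hb
  have h2 : (Nat.land (tmask T i) e).testBit k = e.testBit k := by rw [h]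
  have h3 : (tmask T i &&& e).testBit k = e.testBit k := h2
  rw [Nat.testBit_and, hb, testBit_tmask T i hk] at h3
  simpa using h3

theorem sum_bitw (T : ℕ → Finset ι) {k : ℕ} (hk : k < 9) (z : ℕ) :
    ∑ i : ι, bitw (tmask T i) k z = (T k).card * z := by
  have : ∀ i : ι, bitw (tmask T i) k z = if i ∈ T k then z else 0 := by
    intro i
    unfold bitw
    rw [testBit_tmask T i hk]
    by_cases h : i ∈ T k <;> simp [h]
  rw [Finset.sum_congr rfl (fun i _ => this i), Finset.sum_ite_mem, Finset.univ_inter,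
    Finset.sum_const, smul_eq_mul]

open scoped Classical in
theorem card_exceptional (T : ℕ → Finset ι) (ex : List ℕ) (hex : ∀ e ∈ ex, Light T e) :
    (univ.filter (fun i : ι => ∃ e ∈ ex, Sub T e i)).card ≤ ex.length := by
  classical
  have h1 : univ.filter (fun i : ι => ∃ e ∈ ex, Sub T e i) ⊆
      ex.toFinset.biUnion (fun e => univ.filter (fun i : ι => Sub T e i)) := by
    intro i hi
    simp only [mem_filter, mem_univ, true_and] at hi
    obtain ⟨e, he, h⟩ := hi
    simp only [mem_biUnion, List.mem_toFinset, mem_filter, mem_univ, true_and]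
    exact ⟨e, he, h⟩
  refine (card_le_card h1).trans (card_biUnion_le.trans ?_)
  calc ∑ e ∈ ex.toFinset, (univ.filter (fun i : ι => Sub T e i)).card
      ≤ ∑ e ∈ ex.toFinset, 1 := by
        refine Finset.sum_le_sum fun e he => ?_
        rw [Finset.card_le_one]
        intro i hi j hj
        simp only [mem_filter, mem_univ, true_and] at hi hj
        exact hex e (List.mem_toFinset.mp he) i j hi hj
    _ = ex.toFinset.card := by simp
    _ ≤ ex.length := List.toFinset_card_le ex

theorem testBit_mask3 (a b c k : ℕ) :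
    (Nat.lor (Nat.lor (2 ^ a) (2 ^ b)) (2 ^ c)).testBit k = true ↔ k = a ∨ k = b ∨ k = c := by
  have : Nat.lor (Nat.lor (2 ^ a) (2 ^ b)) (2 ^ c) = (2 ^ a ||| 2 ^ b) ||| 2 ^ c := rfl
  rw [this]
  simp only [Nat.testBit_or, Nat.testBit_two_pow, Bool.or_eq_true, decide_eq_true_eq]
  constructor
  · rintro ((h | h) | h)
    · exact Or.inl h.symm
    · exact Or.inr (Or.inl h.symm)
    · exact Or.inr (Or.inr h.symm)
  · rintro (h | h | h)
    · exact Or.inl (Or.inl h.symm)
    · exact Or.inl (Or.inr h.symm)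
    · exact Or.inr h.symm

theorem testBit_mask2 (a b k : ℕ) :
    (Nat.lor (2 ^ a) (2 ^ b)).testBit k = true ↔ k = a ∨ k = b := by
  have : Nat.lor (2 ^ a) (2 ^ b) = 2 ^ a ||| 2 ^ b := rfl
  rw [this]
  simp only [Nat.testBit_or, Nat.testBit_two_pow, Bool.or_eq_true, decide_eq_true_eq]
  constructor
  · rintro (h | h)
    · exact Or.inl h.symm
    · exact Or.inr h.symm
  · rintro (h | h)
    · exact Or.inl h.symm
    · exact Or.inr h.symm

theorem adjN_lt {a b : ℕ} (h : adjN a b = true) : a < 9 ∧ b < 9 := by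
  have h' : (a, b) ∈ edgesN ∨ (b, a) ∈ edgesN := by
    simpa [adjN] using h
  have key : ∀ p ∈ edgesN, p.1 < 9 ∧ p.2 < 9 := by decide
  rcases h' with h | h
  · exact key _ h
  · exact (key _ h).symm

/-- the conclusion of the finite lemma -/
def Good (T : ℕ → Finset ι) : Prop :=
  ∃ w : ℕ → ℕ, (∀ i < 6, adjN (w i) (w (i + 1)) = true) ∧
    (∃ i j : ι, i ≠ j ∧ (i ∈ T (w 0) ∧ i ∈ T (w 3) ∧ i ∈ T (w 6)) ∧
      (j ∈ T (w 2) ∧ j ∈ T (w 5)))

theorem check_sound (T : ℕ → Finset ι) (hm : 40000 < Fintype.card ι)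
    (hT : ∀ k, k < 9 → 8 * Fintype.card ι ≤ 25 * (T k).card) (c : Cert) :
    ∀ ex : List ℕ, (∀ e ∈ ex, Light T e) → (∀ e ∈ edgeMasks, e ∈ ex) → check ex c = true →
      Good T := by
  induction c with
  | l z0 z1 z2 z3 z4 z5 z6 z7 z8 =>
    intro ex hex hedge h
    exfalso
    simp only [check, Bool.and_eq_true, Nat.ble_eq, List.all_eq_true, Bool.or_eq_true,
      List.any_eq_true] at h
    obtain ⟨⟨hlen, hZ⟩, hall⟩ := h
    set Z := z0 + z1 + z2 + z3 + z4 + z5 + z6 + z7 + z8 with hZdef
    set W : ι → ℕ := fun i => bitw (tmask T i) 0 z0 + bitw (tmask T i) 1 z1 +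
      bitw (tmask T i) 2 z2 + bitw (tmask T i) 3 z3 + bitw (tmask T i) 4 z4 +
      bitw (tmask T i) 5 z5 + bitw (tmask T i) 6 z6 + bitw (tmask T i) 7 z7 +
      bitw (tmask T i) 8 z8 with hW
    classical
    set Ex := univ.filter (fun i : ι => ∃ e ∈ ex, Sub T e i) with hEx
    have hcard : Ex.card ≤ ex.length := card_exceptional T ex hex
    have hbit : ∀ t k z : ℕ, bitw t k z ≤ z := by
      intro t k z; unfold bitw; split <;> omega
    have hWle : ∀ i, W i ≤ Z := by
      intro i
      simp only [hW, hZdef]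
      have := hbit (tmask T i) 0 z0
      have := hbit (tmask T i) 1 z1
      have := hbit (tmask T i) 2 z2
      have := hbit (tmask T i) 3 z3
      have := hbit (tmask T i) 4 z4
      have := hbit (tmask T i) 5 z5
      have := hbit (tmask T i) 6 z6
      have := hbit (tmask T i) 7 z7
      have := hbit (tmask T i) 8 z8
      omega
    have hWgood : ∀ i, i ∉ Ex → 25 * W i + 1 ≤ 8 * Z := by
      intro i hi
      have hi' : ∀ e ∈ ex, ¬ Sub T e i := by
        intro e he hs
        apply hi
        rw [hEx, mem_filter]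
        exact ⟨mem_univ _, e, he, hs⟩
      have hmem : tmask T i ∈ indepL := by
        rcases mem_indepL_or ⟨tmask T i, tmask_lt T i⟩ with h | ⟨e, he, h⟩
        · exact h
        · exact absurd (sub_of_land T e i h) (hi' e (hedge e he))
      rcases hall _ hmem with ⟨e, he, h⟩ | h
      · exact absurd (sub_of_land T e i (Nat.eq_of_beq_eq_true h)) (hi' e he)
      · exact h
    have hsum1 : ∑ i : ι, W i = (T 0).card * z0 + (T 1).card * z1 + (T 2).card * z2 +
        (T 3).card * z3 + (T 4).card * z4 + (T 5).card * z5 + (T 6).card * z6 +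
        (T 7).card * z7 + (T 8).card * z8 := by
      simp only [hW, Finset.sum_add_distrib]
      rw [sum_bitw T (by norm_num), sum_bitw T (by norm_num), sum_bitw T (by norm_num),
        sum_bitw T (by norm_num), sum_bitw T (by norm_num), sum_bitw T (by norm_num),
        sum_bitw T (by norm_num), sum_bitw T (by norm_num), sum_bitw T (by norm_num)]
    set m := Fintype.card ι with hmdef
    have hlow : 8 * m * Z ≤ 25 * ∑ i : ι, W i := by
      rw [hsum1, hZdef]
      have e0 := Nat.mul_le_mul_right z0 (hT 0 (by norm_num))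
      have e1 := Nat.mul_le_mul_right z1 (hT 1 (by norm_num))
      have e2 := Nat.mul_le_mul_right z2 (hT 2 (by norm_num))
      have e3 := Nat.mul_le_mul_right z3 (hT 3 (by norm_num))
      have e4 := Nat.mul_le_mul_right z4 (hT 4 (by norm_num))
      have e5 := Nat.mul_le_mul_right z5 (hT 5 (by norm_num))
      have e6 := Nat.mul_le_mul_right z6 (hT 6 (by norm_num))
      have e7 := Nat.mul_le_mul_right z7 (hT 7 (by norm_num))
      have e8 := Nat.mul_le_mul_right z8 (hT 8 (by norm_num))
      nlinarith [e0, e1, e2, e3, e4, e5, e6, e7, e8]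
    have hup : 25 * ∑ i : ι, W i + m ≤ m * (8 * Z) + Ex.card * (25 * Z + 1) := by
      have h1 : ∑ i : ι, (25 * W i + 1) = 25 * ∑ i : ι, W i + m := by
        rw [Finset.sum_add_distrib, ← Finset.mul_sum]
        simp [hmdef]
      rw [← h1]
      have h2 : ∀ i : ι, 25 * W i + 1 ≤ 8 * Z + (if i ∈ Ex then 25 * Z + 1 else 0) := by
        intro i
        by_cases hi : i ∈ Ex
        · rw [if_pos hi]
          have := hWle i
          omega
        · rw [if_neg hi]
          exact hWgood i hi
      refine (Finset.sum_le_sum fun i _ => h2 i).trans ?_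
      rw [Finset.sum_add_distrib, Finset.sum_const, Finset.sum_ite_mem, Finset.univ_inter,
        Finset.sum_const, Finset.card_univ, smul_eq_mul, smul_eq_mul]
    have h3 : m ≤ Ex.card * (25 * Z + 1) := by
      have e : m * (8 * Z) = 8 * m * Z := by ring
      rw [e] at hup
      omega
    have h4 : Ex.card * (25 * Z + 1) ≤ 30 * (25 * 40 + 1) := by
      apply Nat.mul_le_mul (hcard.trans hlen)
      omega
    omega
  | n w0 w1 w2 w3 w4 w5 w6 a b iha ihb =>
    intro ex hex hedge h
    simp only [check, Bool.and_eq_true] at h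
    obtain ⟨⟨⟨⟨⟨⟨⟨h01, h12⟩, h23⟩, h34⟩, h45⟩, h56⟩, ha⟩, hb⟩ := h
    by_cases l1 : Light T (Nat.lor (Nat.lor (2 ^ w0) (2 ^ w3)) (2 ^ w6))
    · refine iha _ ?_ ?_ ha
      · intro e he
        rcases List.mem_cons.mp he with rfl | he
        · exact l1
        · exact hex e he
      · intro e he
        exact List.mem_cons_of_mem _ (hedge e he)
    · by_cases l2 : Light T (Nat.lor (2 ^ w2) (2 ^ w5))
      · refine ihb _ ?_ ?_ hb
        · intro e he
          rcases List.mem_cons.mp he with rfl | he
          · exact l2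
          · exact hex e he
        · intro e he
          exact List.mem_cons_of_mem _ (hedge e he)
      · unfold Light at l1 l2
        push Not at l1 l2
        obtain ⟨i, i', hi, -, -⟩ := l1
        obtain ⟨j, j', hj, hj', hne⟩ := l2
        have hwalk : ∀ i < 6, adjN (([w0, w1, w2, w3, w4, w5, w6] : List ℕ).getD i 0)
            (([w0, w1, w2, w3, w4, w5, w6] : List ℕ).getD (i + 1) 0) = true := by
          intro i hi
          interval_cases i
          · exact h01
          · exact h12
          · exact h23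
          · exact h34
          · exact h45
          · exact h56
        have hi3 : i ∈ T w0 ∧ i ∈ T w3 ∧ i ∈ T w6 := by
          refine ⟨hi w0 (adjN_lt h01).1 ?_, hi w3 (adjN_lt h34).1 ?_, hi w6 (adjN_lt h56).2 ?_⟩
          · rw [testBit_mask3]; exact Or.inl rfl
          · rw [testBit_mask3]; exact Or.inr (Or.inl rfl)
          · rw [testBit_mask3]; exact Or.inr (Or.inr rfl)
        have hsub2 : ∀ x, Sub T (Nat.lor (2 ^ w2) (2 ^ w5)) x → x ∈ T w2 ∧ x ∈ T w5 := by
          intro x hx
          refine ⟨hx w2 (adjN_lt h23).1 ?_, hx w5 (adjN_lt h56).1 ?_⟩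
          · rw [testBit_mask2]; exact Or.inl rfl
          · rw [testBit_mask2]; exact Or.inr rfl
        refine ⟨fun i => ([w0, w1, w2, w3, w4, w5, w6] : List ℕ).getD i 0, hwalk, ?_⟩
        by_cases hij : i = j
        · refine ⟨i, j', ?_, hi3, hsub2 j' hj'⟩
          rw [hij]; exact hne
        · exact ⟨i, j, hij, hi3, hsub2 j hj⟩

theorem mask_edge_light (T : ℕ → Finset ι) (a b : ℕ) (e : ℕ) (ha : a < 9) (hb : b < 9)
    (he : e = Nat.lor (2 ^ a) (2 ^ b)) (hab : adjN a b = true) (hba : adjN b a = true)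
    (h : ¬ Light T e) : Good T := by
  unfold Light at h
  push Not at h
  obtain ⟨i, j, hi, hj, hne⟩ := h
  have hsub : ∀ x, Sub T e x → x ∈ T a ∧ x ∈ T b := by
    intro x hx
    refine ⟨hx a ha ?_, hx b hb ?_⟩
    · rw [he, testBit_mask2]; exact Or.inl rfl
    · rw [he, testBit_mask2]; exact Or.inr rfl
  refine ⟨fun k => if k % 2 = 0 then a else b, ?_, i, j, hne, ?_, ?_⟩
  · intro k hk
    interval_cases k <;> simp [hab, hba]
  · have h1 := (hsub i hi).1
    have h2 := (hsub i hi).2
    simp [h1, h2]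
  · have h1 := (hsub j hj).1
    have h2 := (hsub j hj).2
    simp [h1, h2]

theorem adjN_comm (a b : ℕ) : adjN a b = adjN b a := by
  unfold adjN
  rw [Bool.or_comm]

/-- **Finite lemma.** -/
theorem finite_lemma (T : ℕ → Finset ι) (hm : 40000 < Fintype.card ι)
    (hT : ∀ k, k < 9 → 8 * Fintype.card ι ≤ 25 * (T k).card) : Good T := by
  by_contra hG
  have hlight : ∀ e ∈ edgeMasks, Light T e := by
    intro e he
    by_contra hl
    apply hG
    have hE : ∀ e ∈ edgeMasks, ∃ p ∈ edgesN, e = Nat.lor (2 ^ p.1) (2 ^ p.2) := by decide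
    obtain ⟨p, hp, hep⟩ := hE e he
    have hab : adjN p.1 p.2 = true := by
      have : ∀ p ∈ edgesN, adjN p.1 p.2 = true := by decide
      exact this p hp
    exact mask_edge_light T p.1 p.2 e (adjN_lt hab).1 (adjN_lt hab).2 hep hab
      (by rw [adjN_comm]; exact hab) hl
  exact hG (check_sound T hm hT theCert edgeMasks hlight (fun e he => he) check_theCert)

end Pool.Agent.H34.PolyRem
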