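import Pool.Agent.H34.PolyRem.Structure

set_option autoImplicit false
set_option linter.unusedSectionVars false

open Finset

namespace Pool.Agent.H34.PolyRem

/-- the fully joined pairs of labels -/
def Q0 (a b : Fin 11) : Bool :=
  Nat.testBit 25962761849212615361003994586587240 (11 * a.val + b.val)

/-- all adjacent pairs of labels -/
def QQ (a b : Fin 11) : Bool :=
  Nat.testBit 774465003981222181728474160507691112 (11 * a.val + b.val)

theorem QQ_comm : ∀ a b, QQ a b = QQ b a := by decide +kernel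

theorem Q0_comm : ∀ a b, Q0 a b = Q0 b a := by decide +kernel

theorem QQ_of_Q0 : ∀ a b, Q0 a b = true → QQ a b = true := by decide +kernel

theorem QQ_irrefl : ∀ a, QQ a a = false := by decide +kernel

/-- the shift coefficient of the oriented pairs of labels of the 5-cycle -/
def co (a b : Fin 11) : ℕ :=
  if a.val = 6 ∧ b.val = 7 then 1 else if a.val = 7 ∧ b.val = 8 then 1 else
  if a.val = 8 ∧ b.val = 9 then 1 else if a.val = 9 ∧ b.val = 10 then 1 else
  if a.val = 6 ∧ b.val = 10 then 4 else 0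

theorem QQ_of_co : ∀ a b, co a b ≠ 0 → QQ a b = true := by decide +kernel

/-- the first homomorphism -/
def t1 : Fin 9 → Fin 11 := ![2, 3, 0, 6, 7, 8, 9, 10, 5]

/-- the second homomorphism -/
def t2 : Fin 9 → Fin 11 := ![3, 2, 10, 6, 7, 8, 5, 0, 9]

set_option synthInstance.maxSize 4000 in
theorem two_homs_aux : ∀ v7 v3 : Fin 11, QQ v7 v3 = true → ∀ v0, QQ v7 v0 = true → ∀ v1, QQ v0 v1 = true →
    ∀ v2, QQ v1 v2 = true → QQ v2 v3 = true → ∀ v6, QQ v7 v6 = true → ∀ v5, QQ v5 v6 = true →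
    ∀ v4, QQ v4 v5 = true → QQ v3 v4 = true → ∀ v8, QQ v8 v2 = true → QQ v8 v5 = true →
    (v0 = 2 ∧ v1 = 3 ∧ v2 = 0 ∧ v3 = 6 ∧ v4 = 7 ∧ v5 = 8 ∧ v6 = 9 ∧ v7 = 10 ∧ v8 = 5) ∨
    (v0 = 3 ∧ v1 = 2 ∧ v2 = 10 ∧ v3 = 6 ∧ v4 = 7 ∧ v5 = 8 ∧ v6 = 5 ∧ v7 = 0 ∧ v8 = 9) := by
  decide +kernel

theorem two_homs (g : Fin 9 → Fin 11) (hg : ∀ a b, H9.Adj a b → QQ (g a) (g b) = true) :
    g = t1 ∨ g = t2 := by
  have h := two_homs_aux (g 7) (g 3) (hg 7 3 (by decide)) (g 0) (hg 7 0 (by decide))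
    (g 1) (hg 0 1 (by decide)) (g 2) (hg 1 2 (by decide)) (hg 2 3 (by decide)) (g 6)
    (hg 7 6 (by decide)) (g 5) (hg 5 6 (by decide)) (g 4) (hg 4 5 (by decide)) (hg 3 4 (by decide))
    (g 8) (hg 8 2 (by decide)) (hg 8 5 (by decide))
  rcases h with h | h
  · left
    funext i
    fin_cases i <;> simp_all [t1]
  · right
    funext i
    fin_cases i <;> simp_all [t2]

/-- labels of the slots -/
def lab (i : Fin 39) : Fin 11 :=
  if i.val < 8 then 0 else if i.val < 16 then 1 else if i.val < 17 then 2 else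
  if i.val < 18 then 3 else if i.val < 26 then 4 else if i.val < 34 then 5 else
  if i.val < 35 then 6 else if i.val < 36 then 7 else if i.val < 37 then 8 else
  if i.val < 38 then 9 else 10

/-- start of a block of eight slots joined to the slot `i` -/
def blockStart (i : Fin 39) : ℕ :=
  if i.val < 8 then 26 else if i.val < 16 then 18 else if i.val < 17 then 8 else
  if i.val < 18 then 0 else if i.val < 26 then 8 else if i.val < 34 then 0 else
  if i.val < 35 then 0 else if i.val < 36 then 18 else if i.val < 37 then 26 else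
  if i.val < 38 then 8 else 18

theorem blockStart_lt : ∀ (i : Fin 39) (k : Fin 8), blockStart i + k.val < 39 := by decide +kernel

/-- the slots of the block joined to the slot `i` -/
def block (i : Fin 39) (k : Fin 8) : Fin 39 := ⟨blockStart i + k.val, blockStart_lt i k⟩

theorem block_injective (i : Fin 39) : Function.Injective (block i) := by
  intro a b h
  have := congrArg Fin.val h
  simp only [block] at this
  exact Fin.ext (by omega)

theorem Q0_block : ∀ (i : Fin 39) (k : Fin 8), Q0 (lab i) (lab (block i k)) = true := by decide +kernel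

theorem lab_ge : ∀ i j : Fin 39, 6 ≤ (lab i).val → lab i = lab j → i = j := by decide +kernel

variable (p : ℕ) (S : Finset ℕ)

/-- oriented adjacency in the host -/
def hostRel (u v : Fin 39 × ZMod p) : Prop :=
  Q0 (lab u.1) (lab v.1) = true ∨
    (co (lab u.1) (lab v.1) ≠ 0 ∧ ∃ s ∈ S, v.2 = u.2 + (co (lab u.1) (lab v.1) : ZMod p) * (s : ZMod p))

/-- the host graph -/
def host : SimpleGraph (Fin 39 × ZMod p) := SimpleGraph.fromRel (hostRel p S)

variable {p S}

theorem host_adj {u v : Fin 39 × ZMod p} :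
    (host p S).Adj u v ↔ u ≠ v ∧ (hostRel p S u v ∨ hostRel p S v u) := by
  rw [host, SimpleGraph.fromRel_adj]

theorem QQ_of_hostRel {u v : Fin 39 × ZMod p} (h : hostRel p S u v) : QQ (lab u.1) (lab v.1) = true := by
  rcases h with h | ⟨h, _⟩
  · exact QQ_of_Q0 _ _ h
  · exact QQ_of_co _ _ h

theorem QQ_of_host {u v : Fin 39 × ZMod p} (h : (host p S).Adj u v) : QQ (lab u.1) (lab v.1) = true := by
  rw [host_adj] at h
  rcases h.2 with h | h
  · exact QQ_of_hostRel h
  · rw [QQ_comm]; exact QQ_of_hostRel h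

theorem ne_of_QQ {u v : Fin 39 × ZMod p} (h : QQ (lab u.1) (lab v.1) = true) : u ≠ v := by
  rintro rfl
  rw [QQ_irrefl] at h
  exact absurd h (by decide)

theorem host_of_rel {u v : Fin 39 × ZMod p} (h : hostRel p S u v) : (host p S).Adj u v := by
  rw [host_adj]
  exact ⟨ne_of_QQ (QQ_of_hostRel h), Or.inl h⟩

theorem host_degree [Fact p.Prime] (v : Fin 39 × ZMod p) :
    8 * p ≤ Nat.card {w // (host p S).Adj v w} := by
  classical
  have hcard : Nat.card (Fin 8 × ZMod p) = 8 * p := by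
    rw [Nat.card_prod, Nat.card_zmod, Nat.card_eq_fintype_card, Fintype.card_fin]
  rw [← hcard]
  refine Nat.card_le_card_of_injective
    (fun z : Fin 8 × ZMod p => (⟨(block v.1 z.1, z.2), host_of_rel (Or.inl (Q0_block _ _))⟩ :
      {w // (host p S).Adj v w})) ?_
  rintro ⟨a, x⟩ ⟨b, y⟩ h
  simp only [Subtype.mk.injEq, Prod.mk.injEq] at h
  rw [block_injective _ h.1, h.2]

theorem two_homs_host {f : Fin 9 → Fin 39 × ZMod p} (hf : IsCopy H9 (host p S) f) :
    (fun j => lab (f j).1) = t1 ∨ (fun j => lab (f j).1) = t2 :=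
  two_homs _ fun a b hab => QQ_of_host (hf.2 a b hab)

/-- the adjacency in the 5-cycle part of the host -/
theorem host_cyc {u v : Fin 39 × ZMod p} (h : (host p S).Adj u v)
    (hc : co (lab u.1) (lab v.1) ≠ 0) :
    ∃ s ∈ S, v.2 = u.2 + (co (lab u.1) (lab v.1) : ZMod p) * (s : ZMod p) := by
  have hq : ∀ a b : Fin 11, co a b ≠ 0 → Q0 a b = false ∧ Q0 b a = false ∧ co b a = 0 := by
    decide +kernel
  rw [host_adj] at h
  obtain ⟨h1, h2, h3⟩ := hq _ _ hc
  rcases h.2 with h | h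
  · rcases h with h | h
    · rw [h1] at h; exact absurd h (by decide)
    · exact h.2
  · rcases h with h | h
    · rw [h2] at h; exact absurd h (by decide)
    · exact absurd h3 h.1

/-- the arithmetic of the 5-cycle -/
theorem cyc_rigid (hS : ∀ s ∈ S, 4 * s < p)
    (hS4 : ∀ a ∈ S, ∀ b ∈ S, ∀ c ∈ S, ∀ d ∈ S, ∀ e ∈ S, a + b + c + d = 4 * e →
      a = e ∧ b = e ∧ c = e ∧ d = e) {x1 x2 x3 x4 x5 : ZMod p}
    (h1 : ∃ s ∈ S, x2 = x1 + (s : ZMod p)) (h2 : ∃ s ∈ S, x3 = x2 + (s : ZMod p))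
    (h3 : ∃ s ∈ S, x4 = x3 + (s : ZMod p)) (h4 : ∃ s ∈ S, x5 = x4 + (s : ZMod p))
    (h5 : ∃ s ∈ S, x5 = x1 + 4 * (s : ZMod p)) :
    x3 = x2 + (x2 - x1) ∧ x4 = x3 + (x2 - x1) ∧ x5 = x4 + (x2 - x1) := by
  obtain ⟨a, ha, h1⟩ := h1
  obtain ⟨b, hb, h2⟩ := h2
  obtain ⟨c, hc, h3⟩ := h3
  obtain ⟨d, hd, h4⟩ := h4
  obtain ⟨e, he, h5⟩ := h5
  have hz : ((a + b + c + d : ℕ) : ZMod p) = ((4 * e : ℕ) : ZMod p) := by
    push_cast
    have : x1 + (a : ZMod p) + b + c + d = x1 + 4 * (e : ZMod p) := by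
      rw [← h1, ← h2, ← h3, ← h4, ← h5]
    linear_combination this
  rw [ZMod.natCast_eq_natCast_iff'] at hz
  have hA := hS a ha
  have hB := hS b hb
  have hC := hS c hc
  have hD := hS d hd
  have hE := hS e he
  rw [Nat.mod_eq_of_lt (by omega), Nat.mod_eq_of_lt (by omega)] at hz
  obtain ⟨r1, r2, r3, r4⟩ := hS4 a ha b hb c hc d hd e he hz
  subst r1
  subst r2
  subst r3
  subst r4
  refine ⟨?_, ?_, ?_⟩
  · rw [h2, h1]; ring
  · rw [h3, h1]; ring
  · rw [h4, h1]; ring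

end Pool.Agent.H34.PolyRem
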