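import Pool.Agent.H34.PolyRem.Host

set_option autoImplicit false
set_option linter.unusedSectionVars false

open Finset

namespace Pool.Agent.H34.PolyRem

variable {p : ℕ} {S : Finset ℕ}

theorem count_type [Fact p.Prime] (hS : ∀ s ∈ S, 4 * s < p)
    (hS4 : ∀ a ∈ S, ∀ b ∈ S, ∀ c ∈ S, ∀ d ∈ S, ∀ e ∈ S, a + b + c + d = 4 * e →
      a = e ∧ b = e ∧ c = e ∧ d = e) (t : Fin 9 → Fin 11) (u1 u2 u3 u4 u5 w1 w2 w3 w4 : Fin 9)
    (hcover : ∀ j, j = u1 ∨ j = u2 ∨ j = u3 ∨ j = u4 ∨ j = u5 ∨ j = w1 ∨ j = w2 ∨ j = w3 ∨ j = w4)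
    (h12 : H9.Adj u1 u2) (h23 : H9.Adj u2 u3) (h34 : H9.Adj u3 u4) (h45 : H9.Adj u4 u5)
    (h15 : H9.Adj u1 u5)
    (t1' : t u1 = 6) (t2' : t u2 = 7) (t3' : t u3 = 8) (t4' : t u4 = 9) (t5' : t u5 = 10) :
    Nat.card {f : Fin 9 → Fin 39 × ZMod p // IsCopy H9 (host p S) f ∧ (fun j => lab (f j).1) = t} ≤
      p ^ 2 * (39 * p) ^ 4 := by
  classical
  have hcard : Nat.card ((ZMod p × ZMod p) × ((Fin 39 × ZMod p) × (Fin 39 × ZMod p)) ×
      ((Fin 39 × ZMod p) × (Fin 39 × ZMod p))) = p ^ 2 * (39 * p) ^ 4 := by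
    have h39 : Nat.card (Fin 39) = 39 := Nat.card_eq_fintype_card.trans (Fintype.card_fin 39)
    simp only [Nat.card_prod, Nat.card_zmod, h39]
    ring
  rw [← hcard]
  have key : ∀ f : Fin 9 → Fin 39 × ZMod p, IsCopy H9 (host p S) f → (fun j => lab (f j).1) = t →
      (f u3).2 = (f u2).2 + ((f u2).2 - (f u1).2) ∧ (f u4).2 = (f u3).2 + ((f u2).2 - (f u1).2) ∧
      (f u5).2 = (f u4).2 + ((f u2).2 - (f u1).2) := by
    intro f hf ht
    have e1 : lab (f u1).1 = 6 := by rw [← t1', ← ht]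
    have e2 : lab (f u2).1 = 7 := by rw [← t2', ← ht]
    have e3 : lab (f u3).1 = 8 := by rw [← t3', ← ht]
    have e4 : lab (f u4).1 = 9 := by rw [← t4', ← ht]
    have e5 : lab (f u5).1 = 10 := by rw [← t5', ← ht]
    refine cyc_rigid hS hS4 ?_ ?_ ?_ ?_ ?_
    · have h := host_cyc (hf.2 _ _ h12) (by rw [e1, e2]; decide)
      rw [e1, e2] at h
      have hc : co 6 7 = 1 := by decide
      simpa [hc] using h
    · have h := host_cyc (hf.2 _ _ h23) (by rw [e2, e3]; decide)
      rw [e2, e3] at h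
      have hc : co 7 8 = 1 := by decide
      simpa [hc] using h
    · have h := host_cyc (hf.2 _ _ h34) (by rw [e3, e4]; decide)
      rw [e3, e4] at h
      have hc : co 8 9 = 1 := by decide
      simpa [hc] using h
    · have h := host_cyc (hf.2 _ _ h45) (by rw [e4, e5]; decide)
      rw [e4, e5] at h
      have hc : co 9 10 = 1 := by decide
      simpa [hc] using h
    · have h := host_cyc (hf.2 _ _ h15) (by rw [e1, e5]; decide)
      rw [e1, e5] at h
      have hc : co 6 10 = 4 := by decide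
      simpa [hc] using h
  refine Nat.card_le_card_of_injective
    (fun f => (((f.1 u1).2, (f.1 u2).2), ((f.1 w1, f.1 w2), (f.1 w3, f.1 w4)))) ?_
  rintro ⟨f, hf, htf⟩ ⟨g, hg, htg⟩ h
  simp only [Prod.mk.injEq] at h
  obtain ⟨⟨a1, a2⟩, ⟨b1, b2⟩, b3, b4⟩ := h
  obtain ⟨f3, f4, f5⟩ := key f hf htf
  obtain ⟨g3, g4, g5⟩ := key g hg htg
  have hlab : ∀ j, 6 ≤ (t j).val → (f j).1 = (g j).1 := by
    intro j hj
    have e1 : lab (f j).1 = t j := by rw [← htf]
    have e2 : lab (g j).1 = t j := by rw [← htg]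
    exact lab_ge _ _ (by rw [e1]; exact hj) (by rw [e1, e2])
  have a3 : (f u3).2 = (g u3).2 := by rw [f3, g3, a1, a2]
  have a4 : (f u4).2 = (g u4).2 := by rw [f4, g4, a3, a1, a2]
  have a5 : (f u5).2 = (g u5).2 := by rw [f5, g5, a4, a1, a2]
  have hfg : f = g := by
    funext j
    rcases hcover j with rfl | rfl | rfl | rfl | rfl | rfl | rfl | rfl | rfl
    · exact Prod.ext (hlab _ (by rw [t1']; decide)) a1
    · exact Prod.ext (hlab _ (by rw [t2']; decide)) a2
    · exact Prod.ext (hlab _ (by rw [t3']; decide)) a3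
    · exact Prod.ext (hlab _ (by rw [t4']; decide)) a4
    · exact Prod.ext (hlab _ (by rw [t5']; decide)) a5
    · exact b1
    · exact b2
    · exact b3
    · exact b4
  subst hfg
  rfl

theorem host_copies_le [Fact p.Prime] (hS : ∀ s ∈ S, 4 * s < p)
    (hS4 : ∀ a ∈ S, ∀ b ∈ S, ∀ c ∈ S, ∀ d ∈ S, ∀ e ∈ S, a + b + c + d = 4 * e →
      a = e ∧ b = e ∧ c = e ∧ d = e) :
    numCopies H9 (host p S) ≤ 2 * (p ^ 2 * (39 * p) ^ 4) := by
  classical
  have c1 := count_type hS hS4 t1 3 4 5 6 7 0 1 2 8 (by decide) (by decide) (by decide) (by decide)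
    (by decide) (by decide) rfl rfl rfl rfl rfl
  have c2 := count_type hS hS4 t2 3 4 5 8 2 0 1 6 7 (by decide) (by decide) (by decide) (by decide)
    (by decide) (by decide) rfl rfl rfl rfl rfl
  have h : numCopies H9 (host p S) ≤
      Nat.card {f : Fin 9 → Fin 39 × ZMod p // IsCopy H9 (host p S) f ∧ (fun j => lab (f j).1) = t1} +
      Nat.card {f : Fin 9 → Fin 39 × ZMod p // IsCopy H9 (host p S) f ∧ (fun j => lab (f j).1) = t2} := by
    unfold numCopies
    rw [Nat.card_eq_fintype_card, Nat.card_eq_fintype_card, Nat.card_eq_fintype_card,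
      Fintype.card_subtype, Fintype.card_subtype, Fintype.card_subtype]
    refine le_trans (Finset.card_le_card ?_) (Finset.card_union_le _ _)
    intro f hf
    rw [Finset.mem_filter] at hf
    rw [Finset.mem_union, Finset.mem_filter, Finset.mem_filter]
    rcases two_homs_host hf.2 with h | h
    · exact Or.inl ⟨Finset.mem_univ _, hf.2, h⟩
    · exact Or.inr ⟨Finset.mem_univ _, hf.2, h⟩
  omega

/-- the slots of the planted copies -/
def sl : Fin 9 → Fin 39 := ![16, 17, 0, 34, 35, 36, 37, 38, 26]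

/-- the coefficients of the planted copies -/
def cf : Fin 9 → ℕ := ![5, 6, 7, 0, 1, 2, 3, 4, 8]

theorem sl_inj : ∀ a b, sl a = sl b → a = b := by decide +kernel

theorem cf_inj : ∀ a b, cf a = cf b → a = b := by decide +kernel

theorem cf_lt : ∀ a, cf a < 9 := by decide +kernel

theorem planted_edges : ∀ a b : Fin 9, H9.Adj a b → Q0 (lab (sl a)) (lab (sl b)) = true ∨
    (co (lab (sl a)) (lab (sl b)) ≠ 0 ∧ cf b = cf a + co (lab (sl a)) (lab (sl b))) ∨
    (co (lab (sl b)) (lab (sl a)) ≠ 0 ∧ cf a = cf b + co (lab (sl b)) (lab (sl a))) := by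
  decide +kernel

/-- the planted copy -/
def planted (p : ℕ) (z : ZMod p × ℕ) : Fin 9 → Fin 39 × ZMod p :=
  fun j => (sl j, z.1 + (cf j : ZMod p) * (z.2 : ZMod p))

theorem planted_isCopy {z : ZMod p × ℕ} (hz : z.2 ∈ S) : IsCopy H9 (host p S) (planted p z) := by
  constructor
  · intro a b h
    simp only [planted, Prod.mk.injEq] at h
    exact sl_inj _ _ h.1
  · intro a b hab
    have hrel : ∀ a b : Fin 9, co (lab (sl a)) (lab (sl b)) ≠ 0 →
        cf b = cf a + co (lab (sl a)) (lab (sl b)) → hostRel p S (planted p z a) (planted p z b) := by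
      intro a b h1 h2
      refine Or.inr ⟨h1, z.2, hz, ?_⟩
      simp only [planted]
      rw [h2]
      push_cast
      ring
    rcases planted_edges a b hab with h | ⟨h1, h2⟩ | ⟨h1, h2⟩
    · exact host_of_rel (Or.inl h)
    · exact host_of_rel (hrel a b h1 h2)
    · exact (host_of_rel (hrel b a h1 h2)).symm

theorem planted_solve [Fact p.Prime] (hp : 9 ≤ p) {x y s t : ZMod p} {a b : Fin 9} (hab : a ≠ b)
    (h1 : x + (cf a : ZMod p) * s = y + (cf a : ZMod p) * t)
    (h2 : x + (cf b : ZMod p) * s = y + (cf b : ZMod p) * t) : x = y ∧ s = t := by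
  have h3 : ((cf a : ZMod p) - (cf b : ZMod p)) * (s - t) = 0 := by
    linear_combination h1 - h2
  have h4 : (cf a : ZMod p) - (cf b : ZMod p) ≠ 0 := by
    intro h
    rw [sub_eq_zero, ZMod.natCast_eq_natCast_iff'] at h
    have ha := cf_lt a
    have hb := cf_lt b
    rw [Nat.mod_eq_of_lt (by omega), Nat.mod_eq_of_lt (by omega)] at h
    exact hab (cf_inj _ _ h)
  have h5 : s = t := by
    rcases mul_eq_zero.mp h3 with h | h
    · exact absurd h h4
    · exact sub_eq_zero.mp h
  subst h5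
  exact ⟨add_right_cancel h1, rfl⟩

theorem host_edgeDisjoint [Fact p.Prime] (hp : 9 ≤ p) (hS : ∀ s ∈ S, s < p) (x : ℝ)
    (hx : x ≤ p * S.card) : HasEdgeDisjointCopies H9 (host p S) x := by
  classical
  have hcast : ∀ s ∈ S, ∀ t ∈ S, (s : ZMod p) = (t : ZMod p) → s = t := by
    intro s hs t ht h
    rw [ZMod.natCast_eq_natCast_iff', Nat.mod_eq_of_lt (hS s hs), Nat.mod_eq_of_lt (hS t ht)] at h
    exact h
  refine ⟨((Finset.univ : Finset (ZMod p)) ×ˢ S).image (planted p), ?_, ?_, ?_⟩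
  · intro f hf
    obtain ⟨z, hz, rfl⟩ := Finset.mem_image.mp hf
    exact planted_isCopy (Finset.mem_product.mp hz).2
  · intro f hf g hg hfg
    obtain ⟨z, hz, rfl⟩ := Finset.mem_image.mp hf
    obtain ⟨w, hw, rfl⟩ := Finset.mem_image.mp hg
    have hz2 := (Finset.mem_product.mp hz).2
    have hw2 := (Finset.mem_product.mp hw).2
    intro a b c d hab hcd heq
    have hne : a ≠ b := H9.ne_of_adj hab
    apply hfg
    rw [Sym2.eq_iff] at heq
    have hfin : z = w := by
      rcases heq with ⟨h1, h2⟩ | ⟨h1, h2⟩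
      · simp only [planted, Prod.mk.injEq] at h1 h2
        have e1 := sl_inj _ _ h1.1
        have e2 := sl_inj _ _ h2.1
        subst e1
        subst e2
        obtain ⟨r1, r2⟩ := planted_solve hp hne h1.2 h2.2
        exact Prod.ext r1 (hcast _ hz2 _ hw2 r2)
      · simp only [planted, Prod.mk.injEq] at h1 h2
        have e1 := sl_inj _ _ h1.1
        have e2 := sl_inj _ _ h2.1
        subst e1
        subst e2
        obtain ⟨r1, r2⟩ := planted_solve hp hne h1.2 h2.2
        exact Prod.ext r1 (hcast _ hz2 _ hw2 r2)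
    rw [hfin]
  · rw [Finset.card_image_of_injOn, Finset.card_product, Finset.card_univ, ZMod.card]
    · push_cast
      exact hx
    · intro z hz w hw h
      have hz2 := (Finset.mem_product.mp (Finset.mem_coe.mp hz)).2
      have hw2 := (Finset.mem_product.mp (Finset.mem_coe.mp hw)).2
      have h1 := congrFun h 3
      have h2 := congrFun h 4
      simp only [planted, Prod.mk.injEq] at h1 h2
      obtain ⟨r1, r2⟩ := planted_solve hp (by decide : (3 : Fin 9) ≠ 4) h1.2 h2.2
      exact Prod.ext r1 (hcast _ hz2 _ hw2 r2)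

/-- transport to graphs on `Fin n` -/
theorem remDelta_le {k : ℕ} (H : SimpleGraph (Fin k)) (ε γ : ℝ) {V : Type} [Fintype V]
    (G : SimpleGraph V) (hV : 0 < Fintype.card V)
    (hdeg : ∀ v, γ * Fintype.card V ≤ Nat.card {w // G.Adj v w})
    (hF : HasEdgeDisjointCopies H G (ε * (Fintype.card V : ℝ) ^ 2)) :
    remDelta H ε γ ≤ numCopies H G / (Fintype.card V : ℝ) ^ k := by
  classical
  have hV' : (0 : ℝ) < Fintype.card V := by exact_mod_cast hV
  obtain ⟨e⟩ : Nonempty (Fin (Fintype.card V) ≃ V) := ⟨(Fintype.equivFin V).symm⟩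
  have hcop : ∀ f : Fin k → V, IsCopy H G f → IsCopy H (G.comap e) (fun j => e.symm (f j)) := by
    intro f hf
    refine ⟨fun a b h => hf.1 (e.symm.injective h), fun a b hab => ?_⟩
    rw [SimpleGraph.comap_adj, e.apply_symm_apply, e.apply_symm_apply]
    exact hf.2 a b hab
  have hcop' : ∀ f : Fin k → Fin (Fintype.card V), IsCopy H (G.comap e) f →
      IsCopy H G (fun j => e (f j)) := by
    intro f hf
    refine ⟨fun a b h => hf.1 (e.injective h), fun a b hab => ?_⟩
    exact hf.2 a b hab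
  refine csSup_le ⟨0, le_refl _, zero_le_one, fun n G _ _ => by simp⟩ ?_
  rintro δ ⟨_, _, hδ⟩
  have h := hδ (Fintype.card V) (G.comap e) ?_ ?_
  · rw [le_div_iff₀ (by positivity)]
    refine h.trans ?_
    have : numCopies H (G.comap e) ≤ numCopies H G := by
      unfold numCopies
      refine Nat.card_le_card_of_injective (fun f => ⟨fun j => e (f.1 j), hcop' f.1 f.2⟩) ?_
      rintro ⟨f, hf⟩ ⟨g, hg⟩ hfg
      simp only [Subtype.mk.injEq] at hfg
      have : f = g := by
        funext j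
        exact e.injective (congrFun hfg j)
      subst this
      rfl
    exact_mod_cast this
  · intro v
    refine (hdeg (e v)).trans ?_
    have : Nat.card {w // G.Adj (e v) w} ≤ Nat.card {w // (G.comap e).Adj v w} := by
      refine Nat.card_le_card_of_injective (fun w => ⟨e.symm w.1, by
        rw [SimpleGraph.comap_adj, e.apply_symm_apply]; exact w.2⟩) ?_
      rintro ⟨a, ha⟩ ⟨b, hb⟩ hab
      simp only [Subtype.mk.injEq, e.symm.injective.eq_iff] at hab
      subst hab
      rfl
    exact_mod_cast this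
  · obtain ⟨F, hFc, hFd, hFx⟩ := hF
    refine ⟨F.image (fun f j => e.symm (f j)), ?_, ?_, ?_⟩
    · intro f hf
      obtain ⟨g, hg, rfl⟩ := Finset.mem_image.mp hf
      exact hcop g (hFc g hg)
    · intro f hf f' hf' hne
      obtain ⟨g, hg, rfl⟩ := Finset.mem_image.mp hf
      obtain ⟨g', hg', rfl⟩ := Finset.mem_image.mp hf'
      have hgg : g ≠ g' := fun h => hne (by rw [h])
      intro a b c d hab hcd heq
      refine hFd g hg g' hg' hgg a b c d hab hcd ?_
      have := congrArg (Sym2.map e) heq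
      simpa using this
    · rw [Finset.card_image_of_injective]
      · exact hFx
      · intro f g h
        funext j
        exact e.symm.injective (congrFun h j)

end Pool.Agent.H34.PolyRem
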