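import Pool.Agent.H34.PolyRem.HostCount

set_option autoImplicit false
set_option linter.unusedSectionVars false

open Finset

namespace Pool.Agent.H34.PolyRem

theorem map_lt {D b : ℕ} (x : Fin D → ℕ) (hx : ∀ i, x i < b) : Behrend.map b x < b ^ D := by
  induction D with
  | zero => simp
  | succ n ih =>
    rw [Behrend.map_succ']
    have h0 := hx 0
    have h1 := ih (x ∘ Fin.succ) (fun i => hx i.succ)
    rw [pow_succ]
    calc x 0 + Behrend.map b (x ∘ Fin.succ) * b < b + Behrend.map b (x ∘ Fin.succ) * b := by omega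
      _ = (Behrend.map b (x ∘ Fin.succ) + 1) * b := by ring
      _ ≤ b ^ n * b := Nat.mul_le_mul_right _ h1

/-- strict convexity of the sphere -/
theorem sphere_four {D k : ℕ} (x1 x2 x3 x4 x5 : Fin D → ℕ) (h1 : ∑ i, x1 i ^ 2 = k)
    (h2 : ∑ i, x2 i ^ 2 = k) (h3 : ∑ i, x3 i ^ 2 = k) (h4 : ∑ i, x4 i ^ 2 = k)
    (h5 : ∑ i, x5 i ^ 2 = k) (h : ∀ i, x1 i + x2 i + x3 i + x4 i = 4 * x5 i) :
    x1 = x5 ∧ x2 = x5 ∧ x3 = x5 ∧ x4 = x5 := by
  have hz : ∑ i, ((((x1 i : ℤ) - x5 i) ^ 2 + ((x2 i : ℤ) - x5 i) ^ 2) +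
      (((x3 i : ℤ) - x5 i) ^ 2 + ((x4 i : ℤ) - x5 i) ^ 2)) = 0 := by
    have e : ∀ i, ((((x1 i : ℤ) - x5 i) ^ 2 + ((x2 i : ℤ) - x5 i) ^ 2) +
      (((x3 i : ℤ) - x5 i) ^ 2 + ((x4 i : ℤ) - x5 i) ^ 2)) =
        (x1 i : ℤ) ^ 2 + (x2 i : ℤ) ^ 2 + (x3 i : ℤ) ^ 2 + (x4 i : ℤ) ^ 2 - 4 * (x5 i : ℤ) ^ 2 := by
      intro i
      have hi : (x1 i : ℤ) + x2 i + x3 i + x4 i = 4 * x5 i := by exact_mod_cast h i
      have h1 : (x1 i : ℤ) = 4 * x5 i - x2 i - x3 i - x4 i := by linarith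
      rw [h1]
      ring
    rw [Finset.sum_congr rfl fun i _ => e i, Finset.sum_sub_distrib, Finset.sum_add_distrib,
      Finset.sum_add_distrib, Finset.sum_add_distrib, ← Finset.mul_sum]
    have c1 : ∑ i, (x1 i : ℤ) ^ 2 = k := by exact_mod_cast h1
    have c2 : ∑ i, (x2 i : ℤ) ^ 2 = k := by exact_mod_cast h2
    have c3 : ∑ i, (x3 i : ℤ) ^ 2 = k := by exact_mod_cast h3
    have c4 : ∑ i, (x4 i : ℤ) ^ 2 = k := by exact_mod_cast h4
    have c5 : ∑ i, (x5 i : ℤ) ^ 2 = k := by exact_mod_cast h5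
    rw [c1, c2, c3, c4, c5]
    ring
  rw [Finset.sum_eq_zero_iff_of_nonneg (fun i _ => by positivity)] at hz
  have key : ∀ i, x1 i = x5 i ∧ x2 i = x5 i ∧ x3 i = x5 i ∧ x4 i = x5 i := by
    intro i
    have hi := hz i (Finset.mem_univ i)
    have q1 := sq_nonneg ((x1 i : ℤ) - x5 i)
    have q2 := sq_nonneg ((x2 i : ℤ) - x5 i)
    have q3 := sq_nonneg ((x3 i : ℤ) - x5 i)
    have q4 := sq_nonneg ((x4 i : ℤ) - x5 i)
    have r1 : ((x1 i : ℤ) - x5 i) ^ 2 = 0 := by linarith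
    have r2 : ((x2 i : ℤ) - x5 i) ^ 2 = 0 := by linarith
    have r3 : ((x3 i : ℤ) - x5 i) ^ 2 = 0 := by linarith
    have r4 : ((x4 i : ℤ) - x5 i) ^ 2 = 0 := by linarith
    rw [sq_eq_zero_iff, sub_eq_zero] at r1 r2 r3 r4
    exact ⟨by exact_mod_cast r1, by exact_mod_cast r2, by exact_mod_cast r3, by exact_mod_cast r4⟩
  exact ⟨funext fun i => (key i).1, funext fun i => (key i).2.1, funext fun i => (key i).2.2.1,
    funext fun i => (key i).2.2.2⟩

/-- a Behrend-type set without nontrivial solutions of `a + b + c + d = 4 e` -/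
theorem exists_good_set (D d : ℕ) : ∃ S : Finset ℕ, (∀ s ∈ S, s < (4 * d) ^ D) ∧
    ((d : ℝ) ^ D / (D * (d : ℝ) ^ 2) ≤ S.card) ∧
    (∀ a ∈ S, ∀ b ∈ S, ∀ c ∈ S, ∀ e ∈ S, ∀ f ∈ S, a + b + c + e = 4 * f →
      a = f ∧ b = f ∧ c = f ∧ e = f) := by
  classical
  obtain ⟨k, hk⟩ := Behrend.exists_large_sphere D d
  have hmem : ∀ x ∈ Behrend.sphere D d k, (∀ i, x i < d) ∧ ∑ i, x i ^ 2 = k := by
    intro x hx
    rw [Behrend.sphere, Finset.mem_filter, Behrend.mem_box] at hx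
    exact hx
  have hinj : ∀ x y : Fin D → ℕ, (∀ i, x i < 4 * d) → (∀ i, y i < 4 * d) →
      Behrend.map (4 * d) x = Behrend.map (4 * d) y → x = y := fun x y hx hy h =>
    Behrend.map_injOn hx hy h
  refine ⟨(Behrend.sphere D d k).image (Behrend.map (4 * d)), ?_, ?_, ?_⟩
  · intro s hs
    obtain ⟨x, hx, rfl⟩ := Finset.mem_image.mp hs
    exact map_lt x fun i => lt_of_lt_of_le ((hmem x hx).1 i) (by omega)
  · rw [Finset.card_image_of_injOn]
    · push_cast at hk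
      exact hk
    · intro x hx y hy h
      exact hinj x y (fun i => lt_of_lt_of_le ((hmem x hx).1 i) (by omega))
        (fun i => lt_of_lt_of_le ((hmem y hy).1 i) (by omega)) h
  · intro a ha b hb c hc e he f hf hsum
    obtain ⟨x1, h1, rfl⟩ := Finset.mem_image.mp ha
    obtain ⟨x2, h2, rfl⟩ := Finset.mem_image.mp hb
    obtain ⟨x3, h3, rfl⟩ := Finset.mem_image.mp hc
    obtain ⟨x4, h4, rfl⟩ := Finset.mem_image.mp he
    obtain ⟨x5, h5, rfl⟩ := Finset.mem_image.mp hf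
    have hm : Behrend.map (4 * d) (x1 + x2 + x3 + x4) = Behrend.map (4 * d) (4 • x5) := by
      rw [map_add, map_add, map_add, map_nsmul, hsum, smul_eq_mul]
    have heq := hinj _ _ (fun i => by
        have := (hmem x1 h1).1 i
        have := (hmem x2 h2).1 i
        have := (hmem x3 h3).1 i
        have := (hmem x4 h4).1 i
        simp only [Pi.add_apply]
        omega) (fun i => by
        have := (hmem x5 h5).1 i
        simp only [Pi.smul_apply, smul_eq_mul]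
        omega) hm
    obtain ⟨r1, r2, r3, r4⟩ := sphere_four x1 x2 x3 x4 x5 (hmem x1 h1).2 (hmem x2 h2).2 (hmem x3 h3).2
      (hmem x4 h4).2 (hmem x5 h5).2 (fun i => by
        have := congrFun heq i
        simpa using this)
    rw [r1, r2, r3, r4]
    exact ⟨rfl, rfl, rfl, rfl⟩

theorem not_polyRemovable (γ : ℝ) (hγ : γ < 8 / 39) : ¬ PolyRemovable H9 γ := by
  rintro ⟨μ, hμ, h⟩
  obtain ⟨D, hD⟩ := exists_nat_ge (1 / μ)
  have hDpos' : (0 : ℝ) < D := lt_of_lt_of_le (by positivity) hD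
  have hDpos : 0 < D := by exact_mod_cast hDpos'
  have hD1 : (1 : ℝ) ≤ D := by exact_mod_cast hDpos
  set A : ℝ := 15210 * D * 4 ^ D with hA
  have h4D : (1 : ℝ) ≤ 4 ^ D := one_le_pow₀ (by norm_num)
  have hA1 : 2 ≤ A := by
    rw [hA]
    nlinarith [mul_le_mul hD1 h4D (by norm_num) hDpos'.le]
  have hApos : 0 < A := by linarith
  obtain ⟨d, hd⟩ := exists_nat_gt (A ^ D / μ)
  have hdpos' : (0 : ℝ) < d := lt_of_le_of_lt (by positivity) hd
  have hdpos : 0 < d := by exact_mod_cast hdpos'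
  have hd1 : (1 : ℝ) ≤ d := by exact_mod_cast hdpos
  obtain ⟨S, hSlt, hScard, hS4⟩ := exists_good_set D d
  have hN : 0 < (4 * d) ^ D := by positivity
  obtain ⟨p, hp, hpl, hpu⟩ := Nat.exists_prime_lt_and_le_two_mul (5 * (4 * d) ^ D) (by omega)
  have : Fact p.Prime := ⟨hp⟩
  have hppos : 0 < p := hp.pos
  have hppos' : (0 : ℝ) < p := by exact_mod_cast hppos
  have hdD : d ^ D ≤ (4 * d) ^ D := Nat.pow_le_pow_left (by omega) D
  have hp9 : 9 ≤ p := by
    have h4 : 4 * 1 ≤ (4 * d) ^ D := by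
      calc 4 * 1 ≤ 4 * d := by omega
        _ = (4 * d) ^ 1 := (pow_one _).symm
        _ ≤ (4 * d) ^ D := Nat.pow_le_pow_right (by omega) hDpos
    omega
  have hSp : ∀ s ∈ S, 4 * s < p := by
    intro s hs
    have := hSlt s hs
    omega
  set ε : ℝ := 1 / (A * (d : ℝ) ^ 2) with hε
  have hAd : 1 < A * (d : ℝ) ^ 2 := by
    have : (1 : ℝ) ≤ (d : ℝ) ^ 2 := one_le_pow₀ hd1
    nlinarith
  have hε0 : 0 < ε := by positivity
  have hε1 : ε < 1 := by
    rw [hε, div_lt_one (by positivity)]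
    exact hAd
  have hcardV : (Fintype.card (Fin 39 × ZMod p) : ℝ) = 39 * p := by
    rw [Fintype.card_prod, Fintype.card_fin, ZMod.card]
    push_cast
    ring
  have h1 := h ε hε0 hε1
  have h2 := remDelta_le H9 ε γ (host p S) (by
      rw [Fintype.card_prod, Fintype.card_fin, ZMod.card]
      omega) (by
      intro v
      rw [hcardV]
      have := host_degree (S := S) v
      have hc : (8 : ℝ) * p ≤ Nat.card {w // (host p S).Adj v w} := by exact_mod_cast this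
      refine le_trans ?_ hc
      nlinarith) (by
      refine host_edgeDisjoint hp9 (fun s hs => by have := hSp s hs; omega) _ ?_
      rw [hcardV]
      have hpu' : (p : ℝ) ≤ 10 * ((4 : ℝ) ^ D * (d : ℝ) ^ D) := by
        have : p ≤ 10 * (4 ^ D * d ^ D) := by
          rw [← mul_pow]
          omega
        exact_mod_cast this
      have key : 1521 * (p * ε) ≤ S.card := by
        refine le_trans ?_ hScard
        rw [hε, hA]
        calc 1521 * ((p : ℝ) * (1 / (15210 * D * 4 ^ D * (d : ℝ) ^ 2)))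
            ≤ 1521 * ((10 * ((4 : ℝ) ^ D * (d : ℝ) ^ D)) * (1 / (15210 * D * 4 ^ D * (d : ℝ) ^ 2))) := by
              gcongr
          _ = (d : ℝ) ^ D / (D * (d : ℝ) ^ 2) := by
              field_simp
              norm_num
      have := mul_le_mul_of_nonneg_left key hppos'.le
      calc ε * (39 * (p : ℝ)) ^ 2 = p * (1521 * (p * ε)) := by ring
        _ ≤ _ := this)
  rw [hcardV] at h2
  have h3 : (numCopies H9 (host p S) : ℝ) ≤ 2 * ((p : ℝ) ^ 2 * (39 * p) ^ 4) := by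
    have := host_copies_le hSp hS4
    exact_mod_cast this
  have h4 : (numCopies H9 (host p S) : ℝ) / (39 * p) ^ 9 ≤ 1 / (p : ℝ) ^ 3 := by
    rw [div_le_div_iff₀ (by positivity) (by positivity), one_mul]
    calc (numCopies H9 (host p S) : ℝ) * (p : ℝ) ^ 3
        ≤ 2 * ((p : ℝ) ^ 2 * (39 * p) ^ 4) * (p : ℝ) ^ 3 := by gcongr
      _ = (2 * 39 ^ 4) * (p : ℝ) ^ 9 := by ring
      _ ≤ 39 ^ 9 * (p : ℝ) ^ 9 := by
          refine mul_le_mul_of_nonneg_right (by norm_num) (by positivity)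
      _ = (39 * (p : ℝ)) ^ 9 := by ring
  have h5 : 1 / (p : ℝ) ^ 3 ≤ 1 / ((d : ℝ) ^ D) ^ 3 := by
    have : (d : ℝ) ^ D ≤ p := by
      have : d ^ D ≤ p := by omega
      exact_mod_cast this
    gcongr
  have h6 : μ * ε ^ D ≤ μ * ε ^ (1 / μ) := by
    refine mul_le_mul_of_nonneg_left ?_ hμ.le
    rw [← Real.rpow_natCast ε D]
    exact Real.rpow_le_rpow_of_exponent_ge hε0 hε1.le hD
  have h7 : μ * ε ^ D ≤ 1 / ((d : ℝ) ^ D) ^ 3 := by linarith
  have h8 : ε ^ D = 1 / (A ^ D * ((d : ℝ) ^ D) ^ 2) := by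
    rw [hε, div_pow, one_pow, mul_pow, ← pow_mul, ← pow_mul, mul_comm 2 D]
  have hdDpos : (0 : ℝ) < (d : ℝ) ^ D := by positivity
  have hdd : (d : ℝ) ≤ (d : ℝ) ^ D := le_self_pow₀ hd1 (by omega)
  rw [h8, mul_one_div, div_le_div_iff₀ (by positivity) (by positivity), one_mul] at h7
  have h9 : μ * (d : ℝ) ^ D ≤ A ^ D := by
    have : (μ * (d : ℝ) ^ D) * ((d : ℝ) ^ D) ^ 2 ≤ A ^ D * ((d : ℝ) ^ D) ^ 2 := by
      calc (μ * (d : ℝ) ^ D) * ((d : ℝ) ^ D) ^ 2 = μ * ((d : ℝ) ^ D) ^ 3 := by ring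
        _ ≤ _ := h7
    exact le_of_mul_le_mul_right this (by positivity)
  rw [div_lt_iff₀ hμ] at hd
  have h10 : (d : ℝ) * μ ≤ μ * (d : ℝ) ^ D := by
    rw [mul_comm]
    exact mul_le_mul_of_nonneg_left hdd hμ.le
  linarith

end Pool.Agent.H34.PolyRem
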