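import Mathlib

set_option autoImplicit false

/-!
Random samples: all but few of the tuples `X : Fin (25 M) → V` see every large set correctly for
all but few sets.
-/

open Finset

namespace Pool.Agent.H34.PolyRem

variable {V : Type} [Fintype V] [DecidableEq V]

/-- number of indices whose sample point lies in `N` -/
def hits {m : ℕ} (X : Fin m → V) (N : Finset V) : ℕ := (univ.filter (fun i => X i ∈ N)).card

theorem sum_pow_hits {m : ℕ} (N : Finset V) (q : ℝ) :
    ∑ X : Fin m → V, q ^ (hits X N) = (∑ x : V, if x ∈ N then q else 1) ^ m := by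
  rw [Fintype.sum_pow]
  refine Finset.sum_congr rfl fun X _ => ?_
  unfold hits
  rw [← Finset.prod_const, ← Finset.prod_filter]

theorem sum_ite_mem_q (N : Finset V) (q : ℝ) :
    (∑ x : V, if x ∈ N then q else 1) = (Fintype.card V : ℝ) - (1 - q) * N.card := by
  have : ∀ x : V, (if x ∈ N then q else (1 : ℝ)) = 1 - (if x ∈ N then (1 - q) else 0) := by
    intro x; split <;> ring
  rw [Finset.sum_congr rfl (fun x _ => this x), Finset.sum_sub_distrib, Finset.sum_ite_mem,
    Finset.univ_inter, Finset.sum_const, Finset.sum_const, Finset.card_univ]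
  simp only [nsmul_eq_mul, mul_one]
  ring

theorem num_aux : ((9901 : ℝ) / 10000) ^ 25 ≤ (199 / 200) * (97 / 100) ^ 8 := by norm_num

/-- few samples hit a set of density `33 / 100` less than `8 M` times out of `25 M` -/
theorem card_few_hits (M : ℕ) (N : Finset V) (hN : (33 / 100 : ℝ) * Fintype.card V ≤ N.card) :
    ((univ.filter (fun X : Fin (25 * M) → V => hits X N < 8 * M)).card : ℝ) ≤
      (199 / 200) ^ M * (Fintype.card V : ℝ) ^ (25 * M) := by
  set n : ℝ := (Fintype.card V : ℝ) with hn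
  have hn0 : 0 ≤ n := Nat.cast_nonneg _
  set S := univ.filter (fun X : Fin (25 * M) → V => hits X N < 8 * M) with hS
  have h1 : (S.card : ℝ) * (97 / 100) ^ (8 * M) ≤ ∑ X : Fin (25 * M) → V, (97 / 100 : ℝ) ^ (hits X N) := by
    calc (S.card : ℝ) * (97 / 100) ^ (8 * M) = ∑ X ∈ S, (97 / 100 : ℝ) ^ (8 * M) := by
          rw [Finset.sum_const, nsmul_eq_mul]
      _ ≤ ∑ X ∈ S, (97 / 100 : ℝ) ^ (hits X N) := by
          refine Finset.sum_le_sum fun X hX => ?_
          have : hits X N < 8 * M := (Finset.mem_filter.mp hX).2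
          exact pow_le_pow_of_le_one (by norm_num) (by norm_num) this.le
      _ ≤ ∑ X : Fin (25 * M) → V, (97 / 100 : ℝ) ^ (hits X N) := by
          refine Finset.sum_le_sum_of_subset_of_nonneg (Finset.subset_univ _) ?_
          intro X _ _
          positivity
  rw [sum_pow_hits, sum_ite_mem_q] at h1
  have h2 : (Fintype.card V : ℝ) - (1 - 97 / 100) * N.card ≤ (9901 / 10000) * n := by
    rw [← hn]
    nlinarith [hN]
  have hNle : (N.card : ℝ) ≤ n := by
    rw [hn]; exact_mod_cast Finset.card_le_univ N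
  have h3 : 0 ≤ (Fintype.card V : ℝ) - (1 - 97 / 100) * N.card := by
    rw [← hn]; nlinarith
  have h4 : ((Fintype.card V : ℝ) - (1 - 97 / 100) * N.card) ^ (25 * M) ≤
      ((9901 / 10000) * n) ^ (25 * M) := pow_le_pow_left₀ h3 h2 _
  have h5 : ((9901 / 10000) * n) ^ (25 * M) = ((9901 / 10000 : ℝ) ^ 25) ^ M * n ^ (25 * M) := by
    rw [mul_pow, pow_mul]
  have h6 : ((9901 / 10000 : ℝ) ^ 25) ^ M ≤ ((199 / 200) * (97 / 100) ^ 8) ^ M :=
    pow_le_pow_left₀ (by norm_num) num_aux M
  have h7 : (S.card : ℝ) * (97 / 100) ^ (8 * M) ≤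
      ((199 / 200) ^ M * n ^ (25 * M)) * (97 / 100) ^ (8 * M) := by
    calc (S.card : ℝ) * (97 / 100) ^ (8 * M)
        ≤ ((9901 / 10000) * n) ^ (25 * M) := h1.trans h4
      _ = ((9901 / 10000 : ℝ) ^ 25) ^ M * n ^ (25 * M) := h5
      _ ≤ ((199 / 200) * (97 / 100) ^ 8) ^ M * n ^ (25 * M) :=
          mul_le_mul_of_nonneg_right h6 (pow_nonneg hn0 _)
      _ = ((199 / 200) ^ M * n ^ (25 * M)) * (97 / 100) ^ (8 * M) := by
          rw [mul_pow, ← pow_mul]; ring
  exact le_of_mul_le_mul_right h7 (by positivity)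

/-- a family `N v` of sets of density at least `33/100`; for more than half of the samples `X` all
but `η n` of the sets `N v` are hit at least `8 M` times -/
theorem card_good_samples (M : ℕ) (N : V → Finset V)
    (hN : ∀ v, (33 / 100 : ℝ) * Fintype.card V ≤ (N v).card) (η : ℝ) (hη : 0 < η)
    (hM : (199 / 200 : ℝ) ^ M ≤ η / 2) (hV : 0 < Fintype.card V) :
    (Fintype.card V : ℝ) ^ (25 * M) / 2 ≤
      ((univ.filter (fun X : Fin (25 * M) → V =>
        ((univ.filter (fun v => hits X (N v) < 8 * M)).card : ℝ) ≤ η * Fintype.card V)).card : ℝ) := by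
  set n : ℝ := (Fintype.card V : ℝ) with hn
  have hn0 : 0 < n := by rw [hn]; exact_mod_cast hV
  set Gd := univ.filter (fun X : Fin (25 * M) → V =>
        ((univ.filter (fun v => hits X (N v) < 8 * M)).card : ℝ) ≤ η * n) with hGd
  set Bd := univ.filter (fun X : Fin (25 * M) → V =>
        ¬ ((univ.filter (fun v => hits X (N v) < 8 * M)).card : ℝ) ≤ η * n) with hBd
  have htot : Gd.card + Bd.card = (Fintype.card V) ^ (25 * M) := by
    rw [hGd, hBd, Finset.card_filter_add_card_filter_not, Finset.card_univ, Fintype.card_fun,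
      Fintype.card_fin]
  have hdouble : ∑ X : Fin (25 * M) → V, ((univ.filter (fun v => hits X (N v) < 8 * M)).card : ℝ) =
      ∑ v : V, ((univ.filter (fun X : Fin (25 * M) → V => hits X (N v) < 8 * M)).card : ℝ) := by
    simp only [Finset.card_filter, Nat.cast_sum]
    rw [Finset.sum_comm]
  have hsum : ∑ X : Fin (25 * M) → V, ((univ.filter (fun v => hits X (N v) < 8 * M)).card : ℝ) ≤
      n * ((199 / 200) ^ M * n ^ (25 * M)) := by
    rw [hdouble]
    calc ∑ v : V, ((univ.filter (fun X : Fin (25 * M) → V => hits X (N v) < 8 * M)).card : ℝ)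
        ≤ ∑ _v : V, ((199 / 200) ^ M * n ^ (25 * M)) :=
          Finset.sum_le_sum fun v _ => card_few_hits M (N v) (hN v)
      _ = n * ((199 / 200) ^ M * n ^ (25 * M)) := by
          rw [Finset.sum_const, Finset.card_univ, nsmul_eq_mul]
  have hB : (Bd.card : ℝ) * (η * n) ≤ n * ((199 / 200) ^ M * n ^ (25 * M)) := by
    refine le_trans ?_ hsum
    calc (Bd.card : ℝ) * (η * n) = ∑ X ∈ Bd, (η * n) := by
          rw [Finset.sum_const, nsmul_eq_mul]
      _ ≤ ∑ X ∈ Bd, ((univ.filter (fun v => hits X (N v) < 8 * M)).card : ℝ) := by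
          refine Finset.sum_le_sum fun X hX => ?_
          exact (not_le.mp (Finset.mem_filter.mp hX).2).le
      _ ≤ _ := by
          refine Finset.sum_le_sum_of_subset_of_nonneg (Finset.subset_univ _) ?_
          intro X _ _
          positivity
  have hB2 : (Bd.card : ℝ) ≤ n ^ (25 * M) / 2 := by
    have h1 : n * ((199 / 200) ^ M * n ^ (25 * M)) ≤ n * (η / 2 * n ^ (25 * M)) := by
      have : (199 / 200 : ℝ) ^ M * n ^ (25 * M) ≤ η / 2 * n ^ (25 * M) :=
        mul_le_mul_of_nonneg_right hM (by positivity)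
      exact mul_le_mul_of_nonneg_left this hn0.le
    have h2 : (Bd.card : ℝ) * (η * n) ≤ (n ^ (25 * M) / 2) * (η * n) := by
      calc (Bd.card : ℝ) * (η * n) ≤ n * (η / 2 * n ^ (25 * M)) := hB.trans h1
        _ = (n ^ (25 * M) / 2) * (η * n) := by ring
    exact le_of_mul_le_mul_right h2 (by positivity)
  have htot' : (Gd.card : ℝ) + Bd.card = n ^ (25 * M) := by
    rw [hn]; exact_mod_cast htot
  linarith

end Pool.Agent.H34.PolyRem
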