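import Pool.Agent.H34.PolyRem.Defs
import Pool.Agent.H34.PolyRem.Finite
import Pool.Agent.H34.PolyRem.Sampling

set_option autoImplicit false
set_option linter.unusedSectionVars false

open Finset

namespace Pool.Agent.H34.PolyRem

/-- The graph: the path `0 - 1 - ... - 6`, the vertex `7` joined to `0, 3, 6` and the vertex `8`
joined to `2, 5`. -/
def H9 : SimpleGraph (Fin 9) where
  Adj a b := adjN a b = true
  symm := ⟨fun a b h => by rw [adjN_comm]; exact h⟩
  loopless := ⟨by decide⟩

instance : DecidableRel H9.Adj := fun a b => inferInstanceAs (Decidable (adjN a b = true))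

variable {V : Type} [Fintype V] [DecidableEq V]

/-- a sub-family of large minimum degree -/
theorem exists_min_degree_subfamily {k : ℕ} (F : Finset (Fin k → V)) (D : ℝ) (hD : 0 ≤ D)
    (hF : D * (k * Fintype.card V) < F.card) :
    ∃ F' ⊆ F, F'.Nonempty ∧ ∀ f ∈ F', ∀ j, D ≤ (F'.filter (fun g => g j = f j)).card := by
  classical
  let Φ : Finset (Fin k → V) → ℝ := fun S => (S.card : ℝ) - D * ∑ j : Fin k, ((S.image (fun g => g j)).card : ℝ)
  obtain ⟨S, hS, hmax⟩ := Finset.exists_max_image F.powerset Φ ⟨F, Finset.mem_powerset_self F⟩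
  have hSF : S ⊆ F := Finset.mem_powerset.mp hS
  have hpos : 0 < Φ S := by
    have h1 := hmax F (Finset.mem_powerset_self F)
    have h2 : 0 < Φ F := by
      simp only [Φ]
      have h3 : ∑ j : Fin k, ((F.image (fun g => g j)).card : ℝ) ≤ k * Fintype.card V := by
        calc ∑ j : Fin k, ((F.image (fun g => g j)).card : ℝ) ≤ ∑ _j : Fin k, (Fintype.card V : ℝ) := by
              refine Finset.sum_le_sum fun j _ => ?_
              exact_mod_cast Finset.card_le_univ _
          _ = k * Fintype.card V := by simp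
      have h4 := mul_le_mul_of_nonneg_left h3 hD
      linarith
    linarith
  refine ⟨S, hSF, ?_, ?_⟩
  · rw [Finset.nonempty_iff_ne_empty]
    rintro rfl
    simp [Φ] at hpos
  · intro f hf j
    by_contra hlt
    rw [not_le] at hlt
    set S' := S.filter (fun g => ¬ g j = f j) with hS'
    have hmem : S' ∈ F.powerset := Finset.mem_powerset.mpr ((Finset.filter_subset _ _).trans hSF)
    have h1 := hmax S' hmem
    have hcard : (S'.card : ℝ) = S.card - (S.filter (fun g => g j = f j)).card := by
      have := Finset.card_filter_add_card_filter_not (s := S) (fun g => g j = f j)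
      rw [hS']
      have h2 : ((S.filter (fun g => g j = f j)).card : ℝ) + (S.filter (fun g => ¬ g j = f j)).card =
          S.card := by exact_mod_cast this
      linarith
    have himg : ∀ i, ((S'.image (fun g => g i)).card : ℝ) ≤ (S.image (fun g => g i)).card := by
      intro i
      exact_mod_cast Finset.card_le_card (Finset.image_subset_image (Finset.filter_subset _ _))
    have himgj : ((S'.image (fun g => g j)).card : ℝ) + 1 ≤ (S.image (fun g => g j)).card := by
      have hlt2 : (S'.image (fun g => g j)).card < (S.image (fun g => g j)).card := by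
        apply Finset.card_lt_card
        refine ⟨Finset.image_subset_image (Finset.filter_subset _ _), ?_⟩
        intro hcon
        have : f j ∈ S'.image (fun g => g j) := hcon (Finset.mem_image_of_mem _ hf)
        obtain ⟨g, hg, hgj⟩ := Finset.mem_image.mp this
        exact (Finset.mem_filter.mp hg).2 hgj
      exact_mod_cast hlt2
    have hsum : ∑ i : Fin k, ((S'.image (fun g => g i)).card : ℝ) + 1 ≤
        ∑ i : Fin k, ((S.image (fun g => g i)).card : ℝ) := by
      rw [← Finset.add_sum_erase _ _ (Finset.mem_univ j), ← Finset.add_sum_erase _ _ (Finset.mem_univ j)]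
      have : ∑ i ∈ univ.erase j, ((S'.image (fun g => g i)).card : ℝ) ≤
          ∑ i ∈ univ.erase j, ((S.image (fun g => g i)).card : ℝ) :=
        Finset.sum_le_sum fun i _ => himg i
      linarith
    have h5 := mul_le_mul_of_nonneg_left hsum hD
    simp only [Φ] at h1
    rw [hcard] at h1
    nlinarith

/-- walks through the sets `A 0, A 1, ..., A K` -/
def walks (G : SimpleGraph V) [DecidableRel G.Adj] (A : ℕ → Finset V) (K : ℕ) : Finset (Fin (K + 1) → V) :=
  univ.filter (fun s => (∀ i : Fin (K + 1), s i ∈ A i) ∧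
    ∀ i : Fin K, G.Adj (s i.castSucc) (s i.succ))

theorem card_walks (G : SimpleGraph V) [DecidableRel G.Adj] (A : ℕ → Finset V) (D : ℝ) (hD : 0 ≤ D)
    (h0 : D ≤ (A 0).card) (K : ℕ)
    (hstep : ∀ k < K, ∀ u ∈ A k, D ≤ ((A (k + 1)).filter (fun v => G.Adj u v)).card) :
    D ^ (K + 1) ≤ (walks G A K).card := by
  classical
  induction K with
  | zero =>
    simp only [zero_add, pow_one]
    refine h0.trans ?_
    have : (A 0).card ≤ (walks G A 0).card := by
      refine Finset.card_le_card_of_injOn (fun v => fun _ => v) ?_ ?_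
      · intro v hv
        simp only [walks, coe_filter, mem_univ, true_and, Set.mem_ofPred_eq]
        refine ⟨fun i => ?_, fun i => i.elim0⟩
        have : (i : ℕ) = 0 := by omega
        rw [this]; exact hv
      · intro v _ w _ h
        exact congrFun h 0
    exact_mod_cast this
  | succ K ih =>
    have ih' := ih (fun k hk => hstep k (by omega))
    have hinj : ((walks G A K).sigma
        (fun s => (A (K + 1)).filter (fun v => G.Adj (s (Fin.last K)) v))).card ≤
        (walks G A (K + 1)).card := by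
      refine Finset.card_le_card_of_injOn (fun p => Fin.snoc (α := fun _ => V) p.1 p.2) ?_ ?_
      · rintro ⟨s, v⟩ hp
        simp only [coe_sigma, Set.mem_sigma_iff, mem_coe, walks, mem_filter, mem_univ, true_and] at hp
        obtain ⟨⟨hs1, hs2⟩, hv1, hv2⟩ := hp
        simp only [walks, coe_filter, mem_univ, true_and, Set.mem_ofPred_eq]
        refine ⟨?_, ?_⟩
        · intro i
          refine Fin.lastCases ?_ (fun j => ?_) i
          · rw [Fin.snoc_last]; simpa using hv1
          · rw [Fin.snoc_castSucc]; simpa using hs1 j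
        · intro i
          refine Fin.lastCases ?_ (fun j => ?_) i
          · rw [Fin.snoc_castSucc, Fin.succ_last, Fin.snoc_last]
            exact hv2
          · rw [Fin.snoc_castSucc, Fin.succ_castSucc, Fin.snoc_castSucc]
            exact hs2 j
      · rintro ⟨s, v⟩ _ ⟨s', v'⟩ _ h
        have h' : Fin.snoc (α := fun _ => V) s v = Fin.snoc (α := fun _ => V) s' v' := h
        have h1 : s = s' := by
          funext i
          have := congrFun h' i.castSucc
          rwa [Fin.snoc_castSucc, Fin.snoc_castSucc] at this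
        have h2 : v = v' := by
          have := congrFun h' (Fin.last _)
          rwa [Fin.snoc_last, Fin.snoc_last] at this
        rw [h1, h2]
    rw [Finset.card_sigma] at hinj
    have hlow : (walks G A K).card * D ≤ ((∑ s ∈ walks G A K,
        ((A (K + 1)).filter (fun v => G.Adj (s (Fin.last K)) v)).card : ℕ) : ℝ) := by
      push_cast
      calc (walks G A K).card * D = ∑ s ∈ walks G A K, D := by
            rw [Finset.sum_const, nsmul_eq_mul]
        _ ≤ _ := by
            refine Finset.sum_le_sum fun s hs => ?_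
            refine hstep K (by omega) _ ?_
            have := (Finset.mem_filter.mp hs).2.1 (Fin.last K)
            simpa using this
    calc D ^ (K + 1 + 1) = D ^ (K + 1) * D := pow_succ _ _
      _ ≤ (walks G A K).card * D := mul_le_mul_of_nonneg_right ih' hD
      _ ≤ _ := hlow
      _ ≤ (walks G A (K + 1)).card := by exact_mod_cast hinj

/-- homomorphisms as a finset -/
def homs (G : SimpleGraph V) [DecidableRel G.Adj] : Finset (Fin 9 → V) :=
  univ.filter (fun f => ∀ a b, H9.Adj a b → G.Adj (f a) (f b))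

theorem adjN_iff (a b : ℕ) : adjN a b = true ↔ (a, b) ∈ edgesN ∨ (b, a) ∈ edgesN := by
  simp [adjN]

/-- from a walk and two hubs to a homomorphism -/
theorem card_homs_ge (G : SimpleGraph V) [DecidableRel G.Adj] (A : ℕ → Finset V) (x y : V)
    (hx : ∀ k, (k = 0 ∨ k = 3 ∨ k = 6) → ∀ u ∈ A k, G.Adj x u)
    (hy : ∀ k, (k = 2 ∨ k = 5) → ∀ u ∈ A k, G.Adj y u) :
    (walks G A 6).card ≤ ((homs G).filter (fun f => f 7 = x ∧ f 8 = y)).card := by
  classical
  let φ : (Fin 7 → V) → (Fin 9 → V) := fun s a =>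
    if h : (a : ℕ) < 7 then s ⟨a, h⟩ else if (a : ℕ) = 7 then x else y
  refine Finset.card_le_card_of_injOn φ ?_ ?_
  · intro s hs
    simp only [walks, coe_filter, mem_univ, true_and, Set.mem_ofPred_eq] at hs
    obtain ⟨hs1, hs2⟩ := hs
    have key : ∀ a b : Fin 9, ((a : ℕ), (b : ℕ)) ∈ edgesN → G.Adj (φ s a) (φ s b) := by
      intro a b hab
      simp only [edgesN, List.mem_cons, Prod.mk.injEq, List.not_mem_nil, or_false] at hab
      rcases hab with h | h | h | h | h | h | h | h | h | h | h
      · have := hs2 0; simpa [φ, h.1, h.2] using this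
      · have := hs2 1; simpa [φ, h.1, h.2] using this
      · have := hs2 2; simpa [φ, h.1, h.2] using this
      · have := hs2 3; simpa [φ, h.1, h.2] using this
      · have := hs2 4; simpa [φ, h.1, h.2] using this
      · have := hs2 5; simpa [φ, h.1, h.2] using this
      · have := (hx 0 (by simp) _ (hs1 0)).symm; simpa [φ, h.1, h.2] using this
      · have := (hx 3 (by simp) _ (hs1 3)).symm; simpa [φ, h.1, h.2] using this
      · have := (hx 6 (by simp) _ (hs1 6)).symm; simpa [φ, h.1, h.2] using this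
      · have := (hy 2 (by simp) _ (hs1 2)).symm; simpa [φ, h.1, h.2] using this
      · have := (hy 5 (by simp) _ (hs1 5)).symm; simpa [φ, h.1, h.2] using this
    simp only [coe_filter, homs, mem_filter, mem_univ, true_and, Set.mem_ofPred_eq]
    refine ⟨?_, ?_, ?_⟩
    · intro a b hab
      rcases (adjN_iff a b).mp hab with h | h
      · exact key a b h
      · exact (key b a h).symm
    · simp [φ]
    · simp [φ]
  · intro s _ s' _ h
    funext i
    have := congrFun h ⟨i, by omega⟩
    simpa [φ] using this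

/-- a neighbour of each vertex -/
def nb : Fin 9 → Fin 9 := ![1, 0, 1, 2, 3, 4, 5, 0, 2]

theorem nb_adj : ∀ j, H9.Adj j (nb j) := by decide

theorem eq_of_edge (F : Finset (Fin 9 → V))
    (hdisj : ∀ f ∈ F, ∀ g ∈ F, f ≠ g → EdgeDisjoint H9 f g) {a b : Fin 9} (hab : H9.Adj a b)
    {f g : Fin 9 → V} (hf : f ∈ F) (hg : g ∈ F) (h1 : f a = g a) (h2 : f b = g b) : f = g := by
  by_contra hne
  exact hdisj f hf g hg hne a b a b hab hab (by rw [h1, h2])

theorem structure_thm (G : SimpleGraph V) [DecidableRel G.Adj] (F : Finset (Fin 9 → V))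
    (hF : ∀ f ∈ F, IsCopy H9 G f) (hdisj : ∀ f ∈ F, ∀ g ∈ F, f ≠ g → EdgeDisjoint H9 f g)
    (ε : ℝ) (hεF : ε * (Fintype.card V : ℝ) ^ 2 ≤ F.card) (M : ℕ) (hM : 1601 ≤ M)
    (X : Fin (25 * M) → V)
    (hX : ((univ.filter (fun v => hits X (G.neighborFinset v) < 8 * M)).card : ℝ) ≤
      ε / 36 * Fintype.card V)
    (D : ℝ) (hD : 0 ≤ D)
    (hDε : ((2 ^ (25 * M)) ^ 9 : ℝ) * (D * (9 * Fintype.card V)) < 3 / 4 * ε * (Fintype.card V : ℝ) ^ 2) :
    ∃ i j : Fin (25 * M), i ≠ j ∧
      D ^ 7 ≤ ((homs G).filter (fun f => f 7 = X i ∧ f 8 = X j)).card := by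
  classical
  set n : ℝ := (Fintype.card V : ℝ) with hn
  set Bad := univ.filter (fun v => hits X (G.neighborFinset v) < 8 * M) with hBad
  set F1 := F.filter (fun f => ∀ j, f j ∉ Bad) with hF1
  -- few copies meet a bad vertex
  have hfib : ∀ (j : Fin 9) (v : V), (F.filter (fun f => f j = v)).card ≤ Fintype.card V := by
    intro j v
    rw [← Finset.card_univ]
    refine Finset.card_le_card_of_injOn (fun f => f (nb j)) (fun f _ => mem_univ _) ?_
    intro f hf g hg h
    simp only [coe_filter, Set.mem_ofPred_eq] at hf hg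
    exact eq_of_edge F hdisj (nb_adj j) hf.1 hg.1 (hf.2.trans hg.2.symm) h
  have hbadcount : (F.card : ℝ) ≤ F1.card + 9 * (Bad.card * n) := by
    have h1 : F ⊆ F1 ∪ univ.biUnion (fun j : Fin 9 => Bad.biUnion (fun v => F.filter (fun f => f j = v))) := by
      intro f hf
      by_cases h : ∀ j, f j ∉ Bad
      · exact mem_union_left _ (mem_filter.mpr ⟨hf, h⟩)
      · push Not at h
        obtain ⟨j, hj⟩ := h
        refine mem_union_right _ ?_
        simp only [mem_biUnion, mem_univ, true_and, mem_filter]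
        exact ⟨j, f j, hj, hf, rfl⟩
    have h2 : F.card ≤ F1.card + ∑ _j : Fin 9, ∑ _v ∈ Bad, Fintype.card V := by
      refine (card_le_card h1).trans ((card_union_le _ _).trans ?_)
      refine Nat.add_le_add_left (card_biUnion_le.trans ?_) _
      refine Finset.sum_le_sum fun j _ => card_biUnion_le.trans ?_
      exact Finset.sum_le_sum fun v _ => hfib j v
    have h3 : ∑ _j : Fin 9, ∑ _v ∈ Bad, Fintype.card V = 9 * (Bad.card * Fintype.card V) := by
      simp
    rw [h3] at h2
    rw [hn]
    exact_mod_cast h2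
  have hn0 : 0 ≤ n := Nat.cast_nonneg _
  have hF1big : 3 / 4 * ε * n ^ 2 ≤ F1.card := by
    have : 9 * ((Bad.card : ℝ) * n) ≤ 9 * ((ε / 36 * n) * n) := by
      have := mul_le_mul_of_nonneg_right hX hn0
      linarith
    nlinarith
  -- pigeonhole on traces
  let tr : (Fin 9 → V) → (Fin 9 → Finset (Fin (25 * M))) := fun f j =>
    univ.filter (fun i => X i ∈ G.neighborFinset (f j))
  have hpig : ∃ τ ∈ (univ : Finset (Fin 9 → Finset (Fin (25 * M)))),
      D * (9 * n) < ((F1.filter (fun f => tr f = τ)).card : ℝ) := by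
    refine Finset.exists_lt_card_fiber_of_nsmul_lt_card_of_maps_to (fun f _ => mem_univ _) ?_
    have hc : (univ : Finset (Fin 9 → Finset (Fin (25 * M)))).card = (2 ^ (25 * M)) ^ 9 := by
      rw [Finset.card_univ, Fintype.card_fun, Fintype.card_finset, Fintype.card_fin, Fintype.card_fin]
    rw [hc, nsmul_eq_mul]
    push_cast
    exact hDε.trans_le hF1big
  obtain ⟨τ, -, hτ⟩ := hpig
  set F2 := F1.filter (fun f => tr f = τ) with hF2
  obtain ⟨F3, hF3sub, ⟨f0, hf0⟩, hmin⟩ := exists_min_degree_subfamily F2 D hD (by push_cast; exact hτ)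
  have hF3F : ∀ f ∈ F3, f ∈ F := fun f hf =>
    (mem_filter.mp (mem_filter.mp (hF3sub hf)).1).1
  have hF3good : ∀ f ∈ F3, ∀ j, f j ∉ Bad := fun f hf =>
    (mem_filter.mp (mem_filter.mp (hF3sub hf)).1).2
  have hF3tr : ∀ f ∈ F3, tr f = τ := fun f hf => (mem_filter.mp (hF3sub hf)).2
  let U : Fin 9 → Finset V := fun j => F3.image (fun g => g j)
  have hUstep : ∀ (a b : Fin 9), H9.Adj a b → ∀ u ∈ U a,
      D ≤ ((U b).filter (fun v => G.Adj u v)).card := by
    intro a b hab u hu
    obtain ⟨f, hf, rfl⟩ := mem_image.mp hu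
    refine (hmin f hf a).trans ?_
    have : (F3.filter (fun g => g a = f a)).card ≤ ((U b).filter (fun v => G.Adj (f a) v)).card := by
      refine Finset.card_le_card_of_injOn (fun g => g b) ?_ ?_
      · intro g hg
        simp only [coe_filter, Set.mem_ofPred_eq] at hg ⊢
        refine ⟨mem_image_of_mem _ hg.1, ?_⟩
        rw [← hg.2]
        exact (hF g (hF3F g hg.1)).2 a b hab
      · intro g hg g' hg' h
        simp only [coe_filter, Set.mem_ofPred_eq] at hg hg'
        exact eq_of_edge F hdisj hab (hF3F _ hg.1) (hF3F _ hg'.1) (hg.2.trans hg'.2.symm) h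
    exact_mod_cast this
  have hUtr : ∀ (a : Fin 9) (i : Fin (25 * M)), i ∈ τ a → ∀ u ∈ U a, G.Adj (X i) u := by
    intro a i hi u hu
    obtain ⟨f, hf, rfl⟩ := mem_image.mp hu
    rw [← hF3tr f hf] at hi
    have := (mem_filter.mp hi).2
    rw [SimpleGraph.mem_neighborFinset] at this
    exact this.symm
  -- the finite lemma
  let T : ℕ → Finset (Fin (25 * M)) := fun k => if h : k < 9 then τ ⟨k, h⟩ else ∅
  have hT : ∀ k, k < 9 → 8 * Fintype.card (Fin (25 * M)) ≤ 25 * (T k).card := by
    intro k hk
    have h1 : f0 ⟨k, hk⟩ ∉ Bad := hF3good f0 hf0 _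
    have h2 : ¬ hits X (G.neighborFinset (f0 ⟨k, hk⟩)) < 8 * M := by
      intro h
      exact h1 (mem_filter.mpr ⟨mem_univ _, h⟩)
    have h3 : T k = univ.filter (fun i => X i ∈ G.neighborFinset (f0 ⟨k, hk⟩)) := by
      simp only [T, hk, dif_pos]
      rw [← hF3tr f0 hf0]
    rw [h3, Fintype.card_fin]
    unfold hits at h2
    omega
  obtain ⟨w, hw, i, j, hij, ⟨hi0, hi3, hi6⟩, ⟨hj2, hj5⟩⟩ :=
    finite_lemma T (by rw [Fintype.card_fin]; omega) hT
  refine ⟨i, j, hij, ?_⟩
  let A : ℕ → Finset V := fun k => if h : w k < 9 then U ⟨w k, h⟩ else ∅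
  have hwlt : ∀ k ≤ 6, w k < 9 := by
    intro k hk
    rcases Nat.lt_or_ge k 6 with h | h
    · exact (adjN_lt (hw k h)).1
    · have : k = 5 + 1 := by omega
      rw [this]
      exact (adjN_lt (hw 5 (by norm_num))).2
  have hA : ∀ k (hk : k ≤ 6), A k = U ⟨w k, hwlt k hk⟩ := by
    intro k hk
    simp only [A, hwlt k hk, dif_pos]
  have hAstep : ∀ k < 6, ∀ u ∈ A k, D ≤ ((A (k + 1)).filter (fun v => G.Adj u v)).card := by
    intro k hk u hu
    rw [hA k (by omega)] at hu
    rw [hA (k + 1) (by omega)]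
    exact hUstep ⟨w k, hwlt k (by omega)⟩ ⟨w (k + 1), hwlt (k + 1) (by omega)⟩ (hw k hk) u hu
  have hA0 : D ≤ (A 0).card := by
    have h1 := hUstep ⟨w 1, hwlt 1 (by norm_num)⟩ ⟨w 0, hwlt 0 (by norm_num)⟩
      ((H9.adj_comm _ _).mp (hw 0 (by norm_num))) (f0 ⟨w 1, hwlt 1 (by norm_num)⟩)
      (mem_image_of_mem _ hf0)
    rw [hA 0 (by norm_num)]
    refine h1.trans ?_
    exact_mod_cast card_le_card (filter_subset _ _)
  have hwalks := card_walks G A D hD hA0 6 hAstep
  refine hwalks.trans ?_
  have hTτ : ∀ k (hk : k ≤ 6) (i : Fin (25 * M)), i ∈ T (w k) → i ∈ τ ⟨w k, hwlt k hk⟩ := by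
    intro k hk i hi
    simpa only [T, hwlt k hk, dif_pos] using hi
  have := card_homs_ge G A (X i) (X j) ?_ ?_
  · exact_mod_cast this
  · rintro k (rfl | rfl | rfl) u hu
    · rw [hA 0 (by norm_num)] at hu
      exact hUtr _ i (hTτ 0 (by norm_num) i hi0) u hu
    · rw [hA 3 (by norm_num)] at hu
      exact hUtr _ i (hTτ 3 (by norm_num) i hi3) u hu
    · rw [hA 6 (by norm_num)] at hu
      exact hUtr _ i (hTτ 6 (by norm_num) i hi6) u hu
  · rintro k (rfl | rfl) u hu
    · rw [hA 2 (by norm_num)] at hu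
      exact hUtr _ j (hTτ 2 (by norm_num) j hj2) u hu
    · rw [hA 5 (by norm_num)] at hu
      exact hUtr _ j (hTτ 5 (by norm_num) j hj5) u hu

end Pool.Agent.H34.PolyRem
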