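import Pool.Agent.H34.PolyRem.Count

set_option autoImplicit false
set_option linter.unusedSectionVars false

open Finset

namespace Pool.Agent.H34.PolyRem

theorem natCard_adj {n : ℕ} (G : SimpleGraph (Fin n)) [DecidableRel G.Adj] (v : Fin n) :
    Nat.card {w // G.Adj v w} = (G.neighborFinset v).card := by
  rw [Nat.card_eq_fintype_card, Fintype.card_subtype, G.neighborFinset_eq_filter]

/-- from homomorphisms to copies -/
theorem copies_lower {n : ℕ} (G : SimpleGraph (Fin n)) [DecidableRel G.Adj]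
    (hdeg : ∀ v, (33 / 100 : ℝ) * n ≤ Nat.card {w // G.Adj v w})
    (ε : ℝ) (hε : 0 < ε) (hε1 : ε < 1) (hF : HasEdgeDisjointCopies H9 G (ε * n ^ 2))
    (M : ℕ) (hM : 1601 ≤ M) (hMε : (199 / 200 : ℝ) ^ M ≤ ε / 72)
    (β : ℝ) (hβ : β = (ε / (13 * ((2 : ℝ) ^ (25 * M)) ^ 9)) ^ 7 / (2 * ((25 * M : ℕ) : ℝ) ^ 2)) :
    (β / 162) ^ 9 * n ^ 9 ≤ numCopies H9 G := by
  classical
  rcases Nat.eq_zero_or_pos n with rfl | hn
  · simp
  obtain ⟨F, hFc, hFd, hFε⟩ := hF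
  have hn' : (0 : ℝ) < n := by exact_mod_cast hn
  set y : ℝ := ((2 : ℝ) ^ (25 * M)) ^ 9 with hy
  have hy1 : 1 ≤ y := one_le_pow₀ (one_le_pow₀ (by norm_num))
  set κ : ℝ := ε / (13 * y) with hκ
  have hκ0 : 0 < κ := by positivity
  have hm1 : (1 : ℝ) ≤ ((25 * M : ℕ) : ℝ) := by
    have : 1 ≤ 25 * M := by omega
    exact_mod_cast this
  have hlow := hom_lower G (by
      intro v
      rw [Fintype.card_fin, ← natCard_adj G v]
      exact hdeg v) F hFc hFd ε hε (by rw [Fintype.card_fin]; exact hFε) M hM hMε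
      (by rw [Fintype.card_fin]; exact hn) (κ * n) (by positivity) (by
      rw [Fintype.card_fin, ← hy]
      have : y * (κ * n * (9 * n)) = (9 / 13) * ε * (n : ℝ) ^ 2 := by
        rw [hκ]; field_simp
      rw [this]
      have : 0 < ε * (n : ℝ) ^ 2 := by positivity
      nlinarith)
  rw [Fintype.card_fin] at hlow
  have hcop : ((homs G).card : ℝ) ≤ numCopies H9 G + 81 * n ^ 8 := by
    have := homs_le_copies G
    rw [Fintype.card_fin] at this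
    exact_mod_cast this
  have hκ1 : κ ≤ 1 := by
    rw [hκ, div_le_one (by positivity)]
    nlinarith
  generalize 25 * M = m at *
  have hβ0 : 0 < β := by rw [hβ]; positivity
  have hβ1 : β ≤ 1 := by
    rw [hβ, div_le_one (by positivity)]
    have h1 : κ ^ 7 ≤ 1 := pow_le_one₀ hκ0.le hκ1
    have h2 : (1 : ℝ) ≤ (m : ℝ) ^ 2 := one_le_pow₀ hm1
    linarith
  have hhom : β * n ^ 9 ≤ (homs G).card := by
    rw [hβ, div_mul_eq_mul_div, div_le_iff₀ (by positivity)]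
    calc κ ^ 7 * (n : ℝ) ^ 9 = (n : ℝ) ^ 2 * (κ * n) ^ 7 := by ring
      _ ≤ _ := hlow
      _ = _ := by ring
  have hcop1 : (1 : ℝ) ≤ numCopies H9 G := by
    have hFpos : 0 < F.card := by
      have : (0 : ℝ) < F.card := lt_of_lt_of_le (by positivity) hFε
      exact_mod_cast this
    obtain ⟨f, hf⟩ := Finset.card_pos.mp hFpos
    have : 0 < numCopies H9 G := by
      unfold numCopies
      have : Nonempty {f : Fin 9 → Fin n // IsCopy H9 G f} := ⟨⟨f, hFc f hf⟩⟩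
      exact Nat.card_pos
    exact_mod_cast this
  have hβ162 : (β / 162) ^ 9 ≤ β / 162 := by
    have h1 : β / 162 ≤ 1 := by linarith
    have h2 : 0 ≤ β / 162 := by positivity
    exact pow_le_of_le_one h2 h1 (by norm_num)
  by_cases hbig : 162 ≤ β * n
  · have h1 : 162 * (n : ℝ) ^ 8 ≤ β * n ^ 9 := by
      calc 162 * (n : ℝ) ^ 8 ≤ (β * n) * n ^ 8 := mul_le_mul_of_nonneg_right hbig (by positivity)
        _ = β * n ^ 9 := by ring
    have h2 : (β / 162) ^ 9 * (n : ℝ) ^ 9 ≤ β / 162 * n ^ 9 :=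
      mul_le_mul_of_nonneg_right hβ162 (by positivity)
    have h3 : 0 ≤ β * (n : ℝ) ^ 9 := by positivity
    linarith
  · rw [not_le] at hbig
    refine le_trans ?_ hcop1
    rw [← mul_pow]
    refine pow_le_one₀ (by positivity) ?_
    linarith

theorem bound_aux : ∃ c : ℝ, 0 < c ∧ ∃ K : ℕ, 0 < K ∧ ∀ ε : ℝ, 0 < ε → ε < 1 → ∃ M : ℕ, 1601 ≤ M ∧
    (199 / 200 : ℝ) ^ M ≤ ε / 72 ∧
    c * ε ^ K ≤ ((ε / (13 * ((2 : ℝ) ^ (25 * M)) ^ 9)) ^ 7 / (2 * ((25 * M : ℕ) : ℝ) ^ 2) / 162) ^ 9 := by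
  obtain ⟨q, hq⟩ : ∃ q : ℕ, q = 1601 := ⟨_, rfl⟩
  obtain ⟨L, hL⟩ : ∃ L : ℕ, L = 139 * 25 := ⟨_, rfl⟩
  obtain ⟨C1, hC1⟩ : ∃ C1 : ℝ, C1 = (2 : ℝ) ^ (25 * q) := ⟨_, rfl⟩
  have hC1pos : 0 < C1 := by rw [hC1]; exact pow_pos (by norm_num) _
  obtain ⟨C2, hC2⟩ : ∃ C2 : ℝ, C2 = C1 * (73 : ℝ) ^ L := ⟨_, rfl⟩
  have hC2pos : 0 < C2 := by rw [hC2]; positivity
  refine ⟨(1 / (2 * 13 ^ 7 * C2 ^ 65 * 162)) ^ 9, by positivity, (7 + L * 65) * 9, by positivity, ?_⟩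
  intro ε hε hε1
  have hex : ∃ M0 : ℕ, (199 / 200 : ℝ) ^ M0 ≤ ε / 72 := by
    obtain ⟨k, hk⟩ := exists_pow_lt_of_lt_one (show (0 : ℝ) < ε / 72 by positivity)
      (show (199 / 200 : ℝ) < 1 by norm_num)
    exact ⟨k, hk.le⟩
  classical
  set M0 := Nat.find hex with hM0
  have hM0spec : (199 / 200 : ℝ) ^ M0 ≤ ε / 72 := Nat.find_spec hex
  have hinv : (200 / 199 : ℝ) ^ M0 ≤ 73 / ε := by
    rcases Nat.eq_zero_or_pos M0 with h | h
    · rw [h, pow_zero, le_div_iff₀ hε]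
      linarith
    · obtain ⟨k, hk⟩ : ∃ k, M0 = k + 1 := ⟨M0 - 1, by omega⟩
      have hlt : ¬ (199 / 200 : ℝ) ^ k ≤ ε / 72 := Nat.find_min hex (by omega)
      rw [not_le] at hlt
      have h1 : (200 / 199 : ℝ) ^ k * (199 / 200) ^ k = 1 := by
        rw [← mul_pow]; norm_num
      have hp : (0 : ℝ) < (200 / 199 : ℝ) ^ k := by positivity
      have h2 : (200 / 199 : ℝ) ^ k * (ε / 72) ≤ 1 := by
        rw [← h1]
        exact mul_le_mul_of_nonneg_left hlt.le hp.le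
      rw [hk, pow_succ, le_div_iff₀ hε]
      nlinarith
  clear_value M0
  refine ⟨M0 + q, by omega, ?_, ?_⟩
  · calc (199 / 200 : ℝ) ^ (M0 + q) ≤ (199 / 200 : ℝ) ^ M0 :=
        pow_le_pow_of_le_one (by norm_num) (by norm_num) (by omega)
      _ ≤ ε / 72 := hM0spec
  -- bound for y
  have h139 : (2 : ℝ) ≤ (200 / 199 : ℝ) ^ 139 := by
    rw [div_pow, le_div_iff₀ (by positivity)]
    norm_num
  have hy : (2 : ℝ) ^ (25 * (M0 + q)) ≤ C2 / ε ^ L := by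
    have e1 : (2 : ℝ) ^ (25 * (M0 + q)) = C1 * ((2 : ℝ) ^ M0) ^ 25 := by
      rw [hC1, ← pow_mul, ← pow_add]
      congr 1
      omega
    have e2 : (2 : ℝ) ^ M0 ≤ ((200 / 199 : ℝ) ^ M0) ^ 139 := by
      calc (2 : ℝ) ^ M0 ≤ ((200 / 199 : ℝ) ^ 139) ^ M0 := pow_le_pow_left₀ (by norm_num) h139 _
        _ = ((200 / 199 : ℝ) ^ M0) ^ 139 := by rw [← pow_mul, ← pow_mul, mul_comm]
    have e3 : ((200 / 199 : ℝ) ^ M0) ^ 139 ≤ (73 / ε) ^ 139 :=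
      pow_le_pow_left₀ (by positivity) hinv _
    have e4 : ((2 : ℝ) ^ M0) ^ 25 ≤ ((73 / ε) ^ 139) ^ 25 :=
      pow_le_pow_left₀ (by positivity) (e2.trans e3) _
    have e5 : ((73 / ε) ^ 139) ^ 25 = (73 : ℝ) ^ L / ε ^ L := by
      rw [← pow_mul, ← hL, div_pow]
    rw [e1]
    calc C1 * ((2 : ℝ) ^ M0) ^ 25 ≤ C1 * ((73 : ℝ) ^ L / ε ^ L) := by
          rw [← e5]
          exact mul_le_mul_of_nonneg_left e4 hC1pos.le
      _ = C2 / ε ^ L := by rw [hC2, mul_div_assoc]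
  have hm : ((25 * (M0 + q) : ℕ) : ℝ) ≤ (2 : ℝ) ^ (25 * (M0 + q)) := by
    have : 25 * (M0 + q) < 2 ^ (25 * (M0 + q)) := Nat.lt_two_pow_self
    exact_mod_cast this.le
  have hm0 : (0 : ℝ) < ((25 * (M0 + q) : ℕ) : ℝ) := by
    have : 0 < 25 * (M0 + q) := by omega
    exact_mod_cast this
  generalize (2 : ℝ) ^ (25 * (M0 + q)) = Y at hy hm ⊢
  generalize ((25 * (M0 + q) : ℕ) : ℝ) = m at hm hm0 ⊢
  clear hq hL hC1 hC2 hinv h139
  have hY0 : 0 < Y := lt_of_lt_of_le hm0 hm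
  rw [pow_mul, ← mul_pow]
  refine pow_le_pow_left₀ (by positivity) ?_ 9
  have hE : 0 < ε ^ L := by positivity
  have hYE : Y * ε ^ L ≤ C2 := by
    rwa [le_div_iff₀ hE] at hy
  have h65 : Y ^ 65 * ε ^ (L * 65) ≤ C2 ^ 65 := by
    calc Y ^ 65 * ε ^ (L * 65) = (Y * ε ^ L) ^ 65 := by rw [mul_pow, ← pow_mul]
      _ ≤ C2 ^ 65 := pow_le_pow_left₀ (by positivity) hYE _
  have hmY : m ^ 2 ≤ Y ^ 2 := pow_le_pow_left₀ hm0.le hm 2
  have hden : 2 * 13 ^ 7 * (Y ^ 63 * m ^ 2) * 162 ≤ 2 * 13 ^ 7 * Y ^ 65 * 162 := by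
    have : Y ^ 63 * m ^ 2 ≤ Y ^ 63 * Y ^ 2 := mul_le_mul_of_nonneg_left hmY (by positivity)
    have e : Y ^ 63 * Y ^ 2 = Y ^ 65 := by rw [← pow_add]
    rw [e] at this
    linarith
  have hR : (ε / (13 * Y ^ 9)) ^ 7 / (2 * m ^ 2) / 162 = ε ^ 7 / (2 * 13 ^ 7 * (Y ^ 63 * m ^ 2) * 162) := by
    rw [div_pow, mul_pow, ← pow_mul, div_div, div_div]
    congr 1
    ring
  rw [hR, pow_add]
  have hL : 1 / (2 * 13 ^ 7 * C2 ^ 65 * 162) * (ε ^ 7 * ε ^ (L * 65)) =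
      ε ^ 7 * (ε ^ (L * 65) / (2 * 13 ^ 7 * C2 ^ 65 * 162)) := by
    rw [one_div, div_eq_mul_inv]; ring
  have hR2 : ε ^ 7 / (2 * 13 ^ 7 * (Y ^ 63 * m ^ 2) * 162) =
      ε ^ 7 * (1 / (2 * 13 ^ 7 * (Y ^ 63 * m ^ 2) * 162)) := by
    rw [one_div, div_eq_mul_inv]
  rw [hL, hR2]
  refine mul_le_mul_of_nonneg_left ?_ (by positivity)
  have hpos1 : 0 < 2 * 13 ^ 7 * (Y ^ 63 * m ^ 2) * 162 := by positivity
  have hpos2 : 0 < 2 * 13 ^ 7 * C2 ^ 65 * 162 := by positivity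
  rw [div_le_div_iff₀ hpos2 hpos1, one_mul]
  have hE0 : 0 ≤ ε ^ (L * 65) := by positivity
  generalize ε ^ (L * 65) = E at h65 hE0 ⊢
  calc E * (2 * 13 ^ 7 * (Y ^ 63 * m ^ 2) * 162)
      ≤ E * (2 * 13 ^ 7 * Y ^ 65 * 162) := by
        exact mul_le_mul_of_nonneg_left hden hE0
    _ = 2 * 13 ^ 7 * (Y ^ 65 * E) * 162 := by ring
    _ ≤ 2 * 13 ^ 7 * C2 ^ 65 * 162 := by
        have := mul_le_mul_of_nonneg_left h65 (show (0 : ℝ) ≤ 2 * 13 ^ 7 by positivity)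
        linarith

theorem polyRemovable_H9 : PolyRemovable H9 (33 / 100) := by
  obtain ⟨c, hc, K, hK, hb⟩ := bound_aux
  have hKpos : (0 : ℝ) < K := by exact_mod_cast hK
  refine ⟨min c (1 / K), lt_min hc (by positivity), ?_⟩
  intro ε hε hε1
  obtain ⟨M, hM, hMε, hbd⟩ := hb ε hε hε1
  set μ : ℝ := min c (1 / K) with hμ
  have hμ0 : 0 < μ := lt_min hc (by positivity)
  have h1 : ε ^ (1 / μ) ≤ ε ^ K := by
    rw [← Real.rpow_natCast ε K]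
    refine Real.rpow_le_rpow_of_exponent_ge hε hε1.le ?_
    rw [le_div_iff₀ hμ0]
    have : μ ≤ 1 / K := min_le_right _ _
    rw [le_div_iff₀ hKpos] at this
    linarith
  have h2 : μ * ε ^ (1 / μ) ≤ c * ε ^ K :=
    mul_le_mul (min_le_left _ _) h1 (Real.rpow_nonneg hε.le _) hc.le
  set β : ℝ := (ε / (13 * ((2 : ℝ) ^ (25 * M)) ^ 9)) ^ 7 / (2 * ((25 * M : ℕ) : ℝ) ^ 2) with hβ
  have h3 : μ * ε ^ (1 / μ) ≤ (β / 162) ^ 9 := h2.trans hbd
  have hβ1 : (β / 162) ^ 9 ≤ 1 := by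
    have hm1 : (1 : ℝ) ≤ ((25 * M : ℕ) : ℝ) := by
      have : 1 ≤ 25 * M := by omega
      exact_mod_cast this
    have hy1 : (1 : ℝ) ≤ ((2 : ℝ) ^ (25 * M)) ^ 9 := one_le_pow₀ (one_le_pow₀ (by norm_num))
    have hx : ε / (13 * ((2 : ℝ) ^ (25 * M)) ^ 9) ≤ 1 := by
      rw [div_le_one (by positivity)]
      nlinarith
    have hβ1 : β ≤ 1 := by
      rw [hβ, div_le_one (by positivity)]
      have h1 := pow_le_one₀ (n := 7) (show 0 ≤ ε / (13 * ((2 : ℝ) ^ (25 * M)) ^ 9) by positivity) hx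
      have h2 : (1 : ℝ) ≤ ((25 * M : ℕ) : ℝ) ^ 2 := one_le_pow₀ hm1
      linarith
    have hβ0 : 0 ≤ β := by rw [hβ]; positivity
    exact pow_le_one₀ (by positivity) (by linarith)
  refine le_csSup ⟨1, fun x hx => hx.2.1⟩ ⟨?_, h3.trans hβ1, ?_⟩
  · positivity
  · intro n G hdeg hF
    classical
    have := copies_lower G hdeg ε hε hε1 hF M hM hMε β hβ
    refine le_trans ?_ this
    exact mul_le_mul_of_nonneg_right h3 (by positivity)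

end Pool.Agent.H34.PolyRem
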